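import Pool.Agent.Run7.h450.CE.Est

/-! The norm bound for compatible systems. -/

set_option autoImplicit false
set_option linter.unusedSectionVars false
open Filter Topology Matrix
open scoped ComplexOrder

namespace Run7.h450.CE

theorem t_TN (hPSI : S_PSI) : S_TN := by
  intro d N B _ P c z
  classical
  set xa : Fin (d + 1) → ∀ i, c.K i → B := fun a i k => if c.col i = a then c.x i k else 0 with hxa
  have e1 : c.T z = ∑ a, Q (fun i => c.ψ i z) (xa a) (xa a) := by
    unfold CSys.T Q
    rw [Finset.sum_comm]
    refine Finset.sum_congr rfl fun i _ => ?_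
    rw [Finset.sum_eq_single (c.col i)]
    · simp [hxa]
    · intro a _ ha
      refine Finset.sum_eq_zero fun k _ => Finset.sum_eq_zero fun l _ => ?_
      simp [hxa, Ne.symm ha]
    · simp
  have e2 : ∀ a, ‖Q (fun i => c.ψ i z) (xa a) (xa a)‖ ≤ ‖z‖ := by
    intro a
    have hR : RN (xa a) ≤ 1 := by
      rw [RN_flat]
      refine row_le (fun κ : Σ i, c.K i => xa a κ.1 κ.2) 1 (by norm_num) fun b => ?_
      refine orth_row _ 1 (by norm_num) (fun κ l hκl => ?_) (fun κ => ?_) b
      · simp only [hxa]
        by_cases h1 : c.col κ.1 = a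
        · by_cases h2 : c.col l.1 = a
          · rw [if_pos h1, if_pos h2]
            exact c.orth κ.1 κ.2 l.1 l.2 (h1.trans h2.symm) hκl
          · rw [if_neg h2, mul_zero]
        · rw [if_neg h1, star_zero, zero_mul]
      · simp only [hxa]
        by_cases h1 : c.col κ.1 = a
        · rw [if_pos h1, c.mod, Complex.ofReal_one, one_smul]
          exact c.h_le κ.1
        · rw [if_neg h1, star_zero, zero_mul, sub_zero, Complex.ofReal_one, one_smul]
          exact pos_one
    have hs : √(RN (xa a)) ≤ 1 := by rw [Real.sqrt_le_left (by norm_num)]; simpa using hR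
    have h := hPSI B c.ι c.K c.ψ (fun _ => 1) 1 z 1 (xa a) (xa a) c.ψ_cp c.ψ_one (by simp) (by simp)
      (by simp) (by norm_num)
      (fun i => by
        have := c.ψ_one i
        simpa using this)
    simp only [one_mul, Real.sqrt_one] at h
    refine h.trans ?_
    change ‖z‖ * √(RN (xa a)) * √(RN (xa a)) ≤ _
    calc ‖z‖ * √(RN (xa a)) * √(RN (xa a)) ≤ ‖z‖ * 1 * 1 := by gcongr
      _ = _ := by ring
  rw [e1]
  refine (norm_sum_le _ _).trans ((Finset.sum_le_sum fun a _ => e2 a).trans ?_)
  simp

end Run7.h450.CE
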