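import Pool.Agent.Run7.h450.CE.Iface

/-! Basic API for `Pos`. -/

set_option autoImplicit false
open Filter Topology Matrix
open scoped ComplexOrder

namespace Run7.h450.CE

section pos
variable {B : Type*} [CStarAlgebra B]

attribute [local instance] CStarAlgebra.spectralOrder CStarAlgebra.spectralOrderedRing

theorem pos_iff {x : B} : Pos x ↔ 0 ≤ x := by
  unfold Pos; exact (CStarAlgebra.nonneg_iff_eq_star_mul_self).symm

theorem Pos.add {x y : B} (hx : Pos x) (hy : Pos y) : Pos (x + y) := by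
  rw [pos_iff] at *; exact add_nonneg hx hy

theorem pos_zero : Pos (0 : B) := ⟨0, by simp⟩

theorem pos_one : Pos (1 : B) := ⟨1, by simp⟩

theorem pos_star_mul (x : B) : Pos (star x * x) := ⟨x, rfl⟩

theorem pos_mul_star (x : B) : Pos (x * star x) := ⟨star x, by simp⟩

theorem Pos.sum {I : Type*} (s : Finset I) (f : I → B) (h : ∀ i ∈ s, Pos (f i)) :
    Pos (∑ i ∈ s, f i) := by
  rw [pos_iff]; exact Finset.sum_nonneg (fun i hi => pos_iff.1 (h i hi))

theorem Pos.conj {x : B} (hx : Pos x) (a : B) : Pos (star a * x * a) := by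
  obtain ⟨c, rfl⟩ := hx
  exact ⟨c * a, by simp [mul_assoc]⟩

theorem Pos.conj' {x : B} (hx : Pos x) (a : B) : Pos (a * x * star a) := by
  have := hx.conj (star a)
  simpa using this

theorem Pos.smul {x : B} (hx : Pos x) {r : ℝ} (hr : 0 ≤ r) : Pos ((r : ℂ) • x) := by
  obtain ⟨c, rfl⟩ := hx
  refine ⟨((√r : ℝ) : ℂ) • c, ?_⟩
  rw [star_smul, smul_mul_smul_comm]
  congr 1
  rw [Complex.star_def, Complex.conj_ofReal, ← Complex.ofReal_mul, Real.mul_self_sqrt hr]

theorem Pos.sa {x : B} (hx : Pos x) : star x = x := by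
  obtain ⟨c, rfl⟩ := hx
  simp

theorem Pos.trans {x y z : B} (h1 : Pos (x - y)) (h2 : Pos (y - z)) : Pos (x - z) := by
  have := h1.add h2
  simpa using this

theorem Pos.norm_le {x y : B} (hx : Pos x) (h : Pos (y - x)) : ‖x‖ ≤ ‖y‖ := by
  rw [pos_iff] at hx h
  exact CStarAlgebra.norm_le_norm_of_nonneg_of_le hx (sub_nonneg.1 h)

theorem Pos.norm_le' {x : B} {r : ℝ} (hr : 0 ≤ r) (hx : Pos x) (h : Pos ((r : ℂ) • (1 : B) - x)) :
    ‖x‖ ≤ r := by
  rw [pos_iff] at hx h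
  rw [CStarAlgebra.norm_le_iff_le_algebraMap x hr hx]
  rw [sub_nonneg] at h
  have e : (algebraMap ℝ B) r = (r : ℂ) • (1 : B) := by
    rw [Algebra.algebraMap_eq_smul_one]
    exact (RCLike.real_smul_eq_coe_smul (K := ℂ) r (1 : B))
  rw [e]; exact h

theorem pos_norm_sub {x : B} (hx : star x = x) : Pos ((‖x‖ : ℂ) • (1 : B) - x) := by
  rw [pos_iff, sub_nonneg]
  have e : (algebraMap ℝ B) ‖x‖ = (‖x‖ : ℂ) • (1 : B) := by
    rw [Algebra.algebraMap_eq_smul_one]
    exact (RCLike.real_smul_eq_coe_smul (K := ℂ) ‖x‖ (1 : B))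
  rw [← e]
  exact IsSelfAdjoint.le_algebraMap_norm_self (show IsSelfAdjoint x from hx)

theorem Pos.of_norm_le {x : B} {r : ℝ} (hx : star x = x) (h : ‖x‖ ≤ r) :
    Pos ((r : ℂ) • (1 : B) - x) := by
  have h1 := pos_norm_sub hx
  have h2 : Pos (((r - ‖x‖ : ℝ) : ℂ) • (1 : B)) := pos_one.smul (by linarith)
  have := h1.add h2
  have e : (‖x‖ : ℂ) • (1 : B) - x + ((r - ‖x‖ : ℝ) : ℂ) • (1 : B) = (r : ℂ) • (1 : B) - x := by
    push_cast
    rw [sub_smul]; abel
  rwa [e] at this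

end pos

section mat
variable {K : Type*} [Fintype K] [DecidableEq K]

theorem pos_mat_iff {m : Matrix K K ℂ} : Pos m ↔ m.PosSemidef := by
  unfold Pos
  constructor
  · rintro ⟨c, rfl⟩
    exact Matrix.posSemidef_conjTranspose_mul_self c
  · intro h
    open scoped MatrixOrder Matrix.Norms.L2Operator in
    obtain ⟨c, hc⟩ := CStarAlgebra.nonneg_iff_eq_star_mul_self.mp h.nonneg
    exact ⟨c, hc⟩

end mat

end Run7.h450.CE
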