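import Pool.Agent.Run7.h450.CE.Q

/-! Completely positive maps into matrices; compression. -/

set_option autoImplicit false
set_option linter.unusedSectionVars false
open Filter Topology Matrix
open scoped ComplexOrder

namespace Run7.h450.CE

section cp
variable {B : Type} [CStarAlgebra B]

theorem cp_star {K : Type} [Fintype K] [DecidableEq K] (T : B →ₗ[ℂ] Matrix K K ℂ) (hT : CP T)
    (a : B) : T (star a) = (T a)ᴴ := by
  have sa : ∀ {m : Matrix K K ℂ}, Pos m → mᴴ = m := by
    rintro m ⟨c, rfl⟩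
    simp [Matrix.star_eq_conjTranspose]
  have h1 : (T 1)ᴴ = T 1 := by
    have := sa (hT 1 ![1] ![1])
    simpa using this
  have h2 : (T (star a * a))ᴴ = T (star a * a) := by
    have := sa (hT 1 ![a] ![1])
    simpa using this
  have key : ∀ c : ℂ, (c • T a + star c • T (star a))ᴴ = c • T a + star c • T (star a) := by
    intro c
    have h3 := sa (hT 2 ![1, a] ![1, c • 1])
    simp only [Fin.sum_univ_two, Matrix.cons_val_zero, Matrix.cons_val_one, star_one, one_mul,
      mul_one, star_smul, smul_mul_assoc, mul_smul_comm] at h3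
    have e : T 1 + c • T a + (star c • T (star a) + c • star c • T (star a * a)) =
        (c • T a + star c • T (star a)) + (T 1 + c • star c • T (star a * a)) := by abel
    rw [e, Matrix.conjTranspose_add (c • T a + star c • T (star a))] at h3
    have h4 : (T 1 + c • star c • T (star a * a))ᴴ = T 1 + c • star c • T (star a * a) := by
      rw [Matrix.conjTranspose_add, h1, Matrix.conjTranspose_smul, Matrix.conjTranspose_smul, h2,
        star_star, smul_smul, smul_smul, mul_comm]
    rw [h4] at h3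
    exact add_right_cancel h3
  have k1 := key 1
  have k2 := key Complex.I
  simp only [Matrix.conjTranspose_add, Matrix.conjTranspose_smul, star_one, one_smul,
    star_star] at k1 k2
  have hI : star Complex.I = -Complex.I := by simp
  rw [hI] at k2
  have k3 : Complex.I • ((T (star a))ᴴ - (T a)ᴴ) = Complex.I • (T a - T (star a)) := by
    rw [smul_sub, smul_sub]
    have := k2
    simp only [neg_smul] at this
    rw [← sub_eq_zero] at this ⊢
    rw [← this]; abel
  have k4 : (T (star a))ᴴ - (T a)ᴴ = T a - T (star a) := by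
    have := congrArg (fun m => (-Complex.I) • m) k3
    simpa [smul_smul] using this
  have k5 : (2 : ℂ) • T (star a) = (2 : ℂ) • (T a)ᴴ := by
    rw [two_smul, two_smul]
    have e1 : T (star a) + T (star a) = (T a + T (star a)) - (T a - T (star a)) := by abel
    rw [e1, ← k1, ← k4]; abel
  have := congrArg (fun m => ((2 : ℂ)⁻¹) • m) k5
  simpa [smul_smul] using this

theorem cp_vec {K I : Type} [Fintype K] [DecidableEq K] [Fintype I] (T : B →ₗ[ℂ] Matrix K K ℂ)
    (hT : CP T) (a : I → B) (u : I → K → ℂ) :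
    0 ≤ ∑ p, ∑ q, star (u p) ⬝ᵥ (T (star (a p) * a q) *ᵥ (u q)) := by
  rcases isEmpty_or_nonempty K with hK | ⟨⟨r⟩⟩
  · simp [dotProduct]
  · obtain ⟨c, hc⟩ := hT (Fintype.card I) (a ∘ (Fintype.equivFin I).symm)
      (fun p => Matrix.of fun k _ => u ((Fintype.equivFin I).symm p) k)
    have h := congr_fun (congr_fun hc r) r
    have e1 : (∑ i, ∑ j, star (Matrix.of fun (k : K) (_ : K) => u ((Fintype.equivFin I).symm i) k) *
        T (star ((a ∘ (Fintype.equivFin I).symm) i) * (a ∘ (Fintype.equivFin I).symm) j) *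
        (Matrix.of fun (k : K) (_ : K) => u ((Fintype.equivFin I).symm j) k)) r r =
        ∑ p, ∑ q, star (u p) ⬝ᵥ (T (star (a p) * a q) *ᵥ (u q)) := by
      rw [Matrix.sum_apply, ← (Fintype.equivFin I).symm.sum_comp]
      refine Finset.sum_congr rfl fun i _ => ?_
      rw [Matrix.sum_apply, ← (Fintype.equivFin I).symm.sum_comp]
      refine Finset.sum_congr rfl fun j _ => ?_
      rw [mul_assoc]
      rfl
    rw [← e1, h]
    rw [Matrix.star_eq_conjTranspose, Matrix.mul_apply]
    refine Finset.sum_nonneg fun s _ => ?_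
    rw [Matrix.conjTranspose_apply]
    exact star_mul_self_nonneg _

theorem cp_rect {K L I : Type} [Fintype K] [DecidableEq K] [Fintype L] [DecidableEq L] [Fintype I]
    (T : B →ₗ[ℂ] Matrix K K ℂ) (hT : CP T) (a : I → B) (c : I → Matrix K L ℂ) :
    Pos (∑ p, ∑ q, (c p)ᴴ * T (star (a p) * a q) * c q) := by
  rw [pos_mat_iff]
  refine Matrix.PosSemidef.of_dotProduct_mulVec_nonneg ?_ fun w => ?_
  · unfold Matrix.IsHermitian
    simp only [Matrix.conjTranspose_sum]
    rw [Finset.sum_comm]
    refine Finset.sum_congr rfl fun p _ => Finset.sum_congr rfl fun q _ => ?_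
    rw [Matrix.conjTranspose_mul, Matrix.conjTranspose_mul, Matrix.conjTranspose_conjTranspose,
      ← cp_star T hT, star_mul, star_star, Matrix.mul_assoc]
  · have := cp_vec T hT a (fun p => c p *ᵥ w)
    convert this using 1
    rw [Matrix.sum_mulVec, dotProduct_sum]
    refine Finset.sum_congr rfl fun p _ => ?_
    rw [Matrix.sum_mulVec, dotProduct_sum]
    refine Finset.sum_congr rfl fun q _ => ?_
    rw [Matrix.star_mulVec, Matrix.mul_assoc, ← Matrix.mulVec_mulVec, ← Matrix.mulVec_mulVec,
      Matrix.dotProduct_mulVec]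

theorem cp_pos {K : Type} [Fintype K] [DecidableEq K] (T : B →ₗ[ℂ] Matrix K K ℂ) (hT : CP T)
    {a : B} (ha : Pos a) : Pos (T a) := by
  obtain ⟨c, rfl⟩ := ha
  have := hT 1 ![c] ![1]
  simpa using this

end cp

section compress
variable {B : Type} [CStarAlgebra B] {N : ℕ} {K : Type} [Fintype K] [DecidableEq K]
  (M : Fin N → Type) [∀ j, Fintype (M j)] [∀ j, DecidableEq (M j)] (v : ∀ j, M j → K → ℂ)

/-- the matrix with columns `v` over `j` -/
def VV (j : Fin N) : Matrix K (Σ j, M j) ℂ :=
  Matrix.of fun k κ => if κ.1 = j then v κ.1 κ.2 k else 0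

noncomputable def psi' (P : Fin N → B) (T : B →ₗ[ℂ] Matrix K K ℂ) :
    B →ₗ[ℂ] Matrix (Σ j, M j) (Σ j, M j) ℂ where
  toFun z := ∑ j, ∑ j', (VV M v j)ᴴ * T (P j * z * P j') * VV M v j'
  map_add' x y := by
    simp only [mul_add, add_mul, map_add, Matrix.mul_add, Matrix.add_mul,
      Finset.sum_add_distrib]
  map_smul' c x := by
    simp only [mul_smul_comm, smul_mul_assoc, map_smul, Matrix.mul_smul, Matrix.smul_mul,
      Finset.smul_sum, RingHom.id_apply]

theorem psi'_apply (P : Fin N → B) (T : B →ₗ[ℂ] Matrix K K ℂ) (z : B) :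
    psi' M v P T z = ∑ j, ∑ j', (VV M v j)ᴴ * T (P j * z * P j') * VV M v j' := rfl

theorem psi'_cp (P : Fin N → B) (hP : ∀ i, star (P i) = P i) (T : B →ₗ[ℂ] Matrix K K ℂ)
    (hT : CP T) : CP (psi' M v P T) := by
  intro n a b
  have h := cp_rect T hT (fun x : Fin n × Fin N => a x.1 * P x.2) (fun x => VV M v x.2 * b x.1)
  refine (congrArg Pos ?_).mpr h
  rw [Fintype.sum_prod_type]
  refine Finset.sum_congr rfl fun p _ => ?_
  have e : ∀ j, ∑ y : Fin n × Fin N, (VV M v j * b p)ᴴ * T (star (a p * P j) * (a y.1 * P y.2)) *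
      (VV M v y.2 * b y.1) = ∑ q, ∑ j', (VV M v j * b p)ᴴ * T (star (a p * P j) * (a q * P j')) *
      (VV M v j' * b q) := fun j => Fintype.sum_prod_type _
  simp only [e]
  rw [Finset.sum_comm]
  refine Finset.sum_congr rfl fun q _ => ?_
  rw [psi'_apply, Finset.mul_sum, Finset.sum_mul]
  refine Finset.sum_congr rfl fun j _ => ?_
  rw [Finset.mul_sum, Finset.sum_mul]
  refine Finset.sum_congr rfl fun j' _ => ?_
  rw [star_mul, hP, Matrix.conjTranspose_mul, Matrix.star_eq_conjTranspose]
  simp only [mul_assoc, Matrix.mul_assoc]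

theorem VV_one (hv : ∀ j (κ κ' : M j), ∑ k, star (v j κ k) * v j κ' k = if κ = κ' then 1 else 0) :
    ∑ j, (VV M v j)ᴴ * VV M v j = 1 := by
  ext ⟨j, κ⟩ ⟨j', κ'⟩
  rw [Matrix.sum_apply, Finset.sum_eq_single j]
  · rw [Matrix.mul_apply]
    by_cases hj : j = j'
    · subst hj
      have := hv j κ κ'
      simp only [Matrix.conjTranspose_apply, VV, Matrix.of_apply, if_true]
      rw [this, Matrix.one_apply]
      by_cases h : κ = κ'
      · subst h; simp
      · rw [if_neg h, if_neg]
        intro h'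
        exact h (by simpa using h')
    · rw [Matrix.one_apply_ne (by rintro h; exact hj (congrArg Sigma.fst h))]
      refine Finset.sum_eq_zero fun k _ => ?_
      simp [VV, Ne.symm hj]
  · intro j'' _ hj
    rw [Matrix.mul_apply]
    refine Finset.sum_eq_zero fun k _ => ?_
    simp [VV, Ne.symm hj]
  · simp

theorem psi'_one (P : Fin N → B) (hP : ∀ i, star (P i) = P i)
    (hPP : ∀ i i', P i * P i' = if i = i' then P i else 0) (T : B →ₗ[ℂ] Matrix K K ℂ)
    (hT : CP T) (h1 : Pos (1 - T 1))
    (hv : ∀ j (κ κ' : M j), ∑ k, star (v j κ k) * v j κ' k = if κ = κ' then 1 else 0) :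
    Pos (1 - psi' M v P T 1) := by
  have e1 : psi' M v P T 1 = ∑ j, (VV M v j)ᴴ * T (P j) * VV M v j := by
    rw [psi'_apply]
    refine Finset.sum_congr rfl fun j _ => ?_
    rw [Finset.sum_eq_single j]
    · rw [mul_one, hPP, if_pos rfl]
    · intro j' _ hj
      rw [mul_one, hPP, if_neg (Ne.symm hj)]; simp
    · simp
  have e2 : 1 - psi' M v P T 1 = ∑ j, (VV M v j)ᴴ * (1 - T (P j)) * VV M v j := by
    rw [e1, ← VV_one M v hv, ← Finset.sum_sub_distrib]
    refine Finset.sum_congr rfl fun j _ => ?_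
    rw [Matrix.mul_sub, Matrix.sub_mul, Matrix.mul_one]
  rw [e2, pos_mat_iff]
  refine Matrix.posSemidef_sum _ fun j _ => ?_
  refine Matrix.PosSemidef.conjTranspose_mul_mul_same ?_ _
  have e3 : 1 - T (P j) = (1 - T 1) + T (1 - P j) := by rw [map_sub]; abel
  rw [e3]
  refine Matrix.PosSemidef.add (pos_mat_iff.1 h1) (pos_mat_iff.1 (cp_pos T hT ?_))
  refine ⟨1 - P j, ?_⟩
  rw [star_sub, star_one, hP, sub_mul, one_mul, mul_sub, mul_one, hPP, if_pos rfl]
  abel

end compress

end Run7.h450.CE
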