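import Pool.Agent.Run7.h450.CE.Est

/-! The cut. -/

set_option autoImplicit false
set_option linter.unusedSectionVars false
open Filter Topology Matrix
open scoped ComplexOrder

namespace Run7.h450.CE

section cut
variable {B : Type} [CStarAlgebra B] {ι : Type} [Fintype ι] [DecidableEq ι] {K : ι → Type}
    [∀ i, Fintype (K i)] [∀ i, DecidableEq (K i)]
    {N : ℕ} (P : Fin N → B) (M : ι → Fin N → Type) [∀ i j, Fintype (M i j)]
    [∀ i j, DecidableEq (M i j)] (v : ∀ i j, M i j → K i → ℂ) (x : ∀ i, K i → B)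

noncomputable def chi (i : ι) (j : Fin N) : Matrix (K i) (K i) ℂ :=
  ∑ κ, vecMulVec (v i j κ) (star (v i j κ))

theorem chi_apply (i : ι) (j : Fin N) (k l : K i) :
    chi M v i j k l = ∑ κ, v i j κ k * star (v i j κ l) := by
  simp [chi, Matrix.sum_apply, Matrix.vecMulVec_apply]

theorem chi_herm (i : ι) (j : Fin N) : (chi M v i j)ᴴ = chi M v i j := by
  ext k l
  rw [Matrix.conjTranspose_apply, chi_apply, chi_apply, star_sum]
  refine Finset.sum_congr rfl fun κ _ => ?_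
  rw [star_mul, star_star, mul_comm]

theorem chi_sq (hv : ∀ i j (κ κ' : M i j), ∑ k, star (v i j κ k) * v i j κ' k =
    if κ = κ' then 1 else 0) (i : ι) (j : Fin N) :
    chi M v i j * chi M v i j = chi M v i j := by
  ext k l
  rw [Matrix.mul_apply, chi_apply]
  simp only [chi_apply, Finset.sum_mul_sum]
  calc ∑ r, ∑ κ, ∑ κ', v i j κ k * star (v i j κ r) * (v i j κ' r * star (v i j κ' l)) =
      ∑ κ, ∑ κ', ∑ r, v i j κ k * star (v i j κ r) * (v i j κ' r * star (v i j κ' l)) := by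
        rw [Finset.sum_comm]
        refine Finset.sum_congr rfl fun κ _ => ?_
        rw [Finset.sum_comm]
    _ = ∑ κ, ∑ κ', v i j κ k * (if κ = κ' then 1 else 0) * star (v i j κ' l) := by
        refine Finset.sum_congr rfl fun κ _ => Finset.sum_congr rfl fun κ' _ => ?_
        rw [← hv i j κ κ', Finset.mul_sum, Finset.sum_mul]
        refine Finset.sum_congr rfl fun r _ => ?_
        ring
    _ = _ := by
        refine Finset.sum_congr rfl fun κ _ => ?_
        simp

/-- the compressed row -/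
noncomputable def y2 (i : ι) (κ : Σ j, M i j) : B := P κ.1 * ∑ k, v i κ.1 κ.2 k • x i k

theorem y2_V (i : ι) (j : Fin N) (k : K i) :
    ∑ κ, star (VV (M i) (v i) j k κ) • y2 P M v x i κ =
      P j * ∑ l, star (chi M v i j k l) • x i l := by
  rw [Fintype.sum_sigma, Finset.sum_eq_single j]
  · simp only [VV, Matrix.of_apply, if_true, y2]
    calc ∑ κ, star (v i j κ k) • (P j * ∑ l, v i j κ l • x i l) =
        P j * ∑ κ, star (v i j κ k) • ∑ l, v i j κ l • x i l := by
          rw [Finset.mul_sum]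
          refine Finset.sum_congr rfl fun κ _ => ?_
          rw [mul_smul_comm]
      _ = P j * ∑ l, star (chi M v i j k l) • x i l := by
          congr 1
          simp only [Finset.smul_sum, smul_smul]
          rw [Finset.sum_comm]
          refine Finset.sum_congr rfl fun l _ => ?_
          rw [← Finset.sum_smul, chi_apply, star_sum]
          congr 1
          refine Finset.sum_congr rfl fun κ _ => ?_
          rw [star_mul, star_star, mul_comm]
  · intro j' _ hj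
    refine Finset.sum_eq_zero fun κ _ => ?_
    simp [VV, hj]
  · simp

theorem Q_psi' (ψ : ∀ i, B →ₗ[ℂ] Matrix (K i) (K i) ℂ) (hP : ∀ i, star (P i) = P i) (z : B) :
    Q (fun i => psi' (M i) (v i) P (ψ i) z) (y2 P M v x) (y2 P M v x) =
      ∑ j, ∑ j', P j * Q (fun i => chi M v i j * ψ i (P j * z * P j') * chi M v i j') x x *
        P j' := by
  simp only [psi'_apply]
  rw [Q_sum_m]
  refine Finset.sum_congr rfl fun j _ => ?_
  rw [Q_sum_m]
  refine Finset.sum_congr rfl fun j' _ => ?_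
  rw [Q_conj (fun i => ψ i (P j * z * P j')) (fun i => VV (M i) (v i) j)
    (fun i => VV (M i) (v i) j')]
  simp only [y2_V]
  rw [Q_mul, ← Q_conj, hP]
  simp only [chi_herm]

theorem cut_core (hRON : S_RON) (hCS : S_CS) (hPSI : S_PSI)
    (ψ : ∀ i, B →ₗ[ℂ] Matrix (K i) (K i) ℂ) (h : ι → B) (e δ s : ℝ)
    (hP : ∀ i, star (P i) = P i) (hPP : ∀ i i', P i * P i' = if i = i' then P i else 0)
    (hcp : ∀ i, CP (ψ i)) (h1 : ∀ i, Pos (1 - ψ i 1))
    (ho : ∀ i k i' k', (⟨i, k⟩ : Σ i, K i) ≠ ⟨i', k'⟩ → star (x i k) * x i' k' = 0)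
    (hx : ∀ i k, star (x i k) * x i k = h i) (hh : ∀ i, Pos (h i)) (hh1 : ∀ i, Pos (1 - h i))
    (he : 0 ≤ e) (hδ : 0 < δ) (hs : 0 < s) (hs1 : s ≤ 1) (hed : e ≤ δ * s / 2)
    (hQ : ∀ j, ‖(1 - P j) * Phi ψ x (P j) * (1 - P j)‖ ≤ e)
    (hv : ∀ i j (κ κ' : M i j), ∑ k, star (v i j κ k) * v i j κ' k = if κ = κ' then 1 else 0)
    (hv2 : ∀ i j, Pos (ψ i (P j) - (δ : ℂ) • ∑ κ, vecMulVec (v i j κ) (star (v i j κ))))
    (hv3 : ∀ i j, Pos ((δ : ℂ) • (1 : Matrix (K i) (K i) ℂ) -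
      (1 - ∑ κ, vecMulVec (v i j κ) (star (v i j κ))) * ψ i (P j) *
        (1 - ∑ κ, vecMulVec (v i j κ) (star (v i j κ))))) :
    ∃ (x' : ∀ i, (Σ j, M i j) → B) (h' : ι → B),
      (∀ i k, P k.1 * x' i k = x' i k) ∧
      (∀ i k i' k', (⟨i, k⟩ : Σ i, Σ j, M i j) ≠ ⟨i', k'⟩ → star (x' i k) * x' i' k' = 0) ∧
      (∀ i k, star (x' i k) * x' i k = h' i) ∧ (∀ i, Pos (1 - h' i)) ∧
      ∀ z : B, ‖Phi (fun i => psi' (M i) (v i) P (ψ i)) x' z -
        ∑ j, ∑ j', P j * Phi ψ x (P j * z * P j') * P j'‖ ≤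
        ‖z‖ * (10 * √(e / (δ * s)) + 10 * (N : ℝ) ^ 2 * (√δ + √s)) := by
  choose ρ h' hρ hρh hp' hp1' hρs hρ1 using fun i => fc (h i) (hh i) (hh1 i) s hs
  -- the row x ρ
  set xr : ∀ i, K i → B := fun i k => x i k * ρ i with hxr
  have hor : ∀ i k i' k', (⟨i, k⟩ : Σ i, K i) ≠ ⟨i', k'⟩ →
      star (x i k * ρ i) * (x i' k' * ρ i') = 0 := by
    intro i k i' k' hne
    calc star (x i k * ρ i) * (x i' k' * ρ i') = star (ρ i) * (star (x i k) * x i' k') * ρ i' := by
          rw [star_mul]; simp only [mul_assoc]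
      _ = 0 := by rw [ho i k i' k' hne]; simp
  have hxr' : ∀ i k, star (x i k * ρ i) * (x i k * ρ i) = h' i := by
    intro i k
    calc star (x i k * ρ i) * (x i k * ρ i) = star (ρ i) * (star (x i k) * x i k) * ρ i := by
          rw [star_mul]; simp only [mul_assoc]
      _ = h' i := by rw [hx, hρ, hρh]
  set c : ℝ := e / (δ * s) with hc
  have hc0 : 0 ≤ c := by positivity
  have hc2 : c ≤ 1 / 2 := by
    rw [hc, div_le_iff₀ (by positivity)]; linarith
  have hG := gram P M v x ρ h' hCS (fun j i => ψ i (P j)) e δ s he hδ hs hP hPP hρ hρs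
    (fun j i => hv2 i j) hQ hor hxr' hv
  obtain ⟨xh, hx1, hx2, hx3⟩ := hRON B (Σ i, Σ j, M i j) N P (fun κ => κ.2.1)
    (yy P M v x ρ) (fun κ => h' κ.1) c hc0 hc2 hP hPP
    (fun κ => by rw [yy, ← mul_assoc, hPP, if_pos rfl]) (fun κ => hp' κ.1) (fun κ => hp1' κ.1)
    (fun b => (hG b).1) (fun b => (hG b).2)
  refine ⟨fun i k => xh ⟨i, k⟩, h', fun i k => hx1 ⟨i, k⟩, ?_, ?_, hp1', ?_⟩
  · intro i k i' k' hne
    have := hx2 ⟨i, k⟩ ⟨i', k'⟩
    rw [if_neg hne] at this
    exact this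
  · intro i k
    have := hx2 ⟨i, k⟩ ⟨i, k⟩
    rw [if_pos rfl] at this
    exact this
  · intro z
    -- norms of rows
    have hxhR : RN (fun i (k : Σ j, M i j) => xh ⟨i, k⟩) ≤ 1 := by
      rw [RN_flat]
      refine row_le (fun κ : Σ i, Σ j, M i j => xh ⟨κ.1, κ.2⟩) 1 (by norm_num) fun b => ?_
      refine orth_row _ 1 (by norm_num) (fun κ l hκl => ?_) (fun κ => ?_) b
      · have := hx2 κ l
        rw [if_neg hκl] at this
        exact this
      · have := hx2 κ κ
        rw [if_pos rfl] at this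
        change Pos (((1 : ℝ) : ℂ) • 1 - star (xh κ) * xh κ)
        rw [this, Complex.ofReal_one, one_smul]
        exact hp1' κ.1
    have hyR : RN (y2 P M v xr) ≤ 1 := by
      rw [RN_flat]
      refine row_le (fun κ : Σ i, Σ j, M i j => y2 P M v xr κ.1 κ.2) 1 (by norm_num) fun b => ?_
      have hup := (hG b).1
      have h2 : Pos (∑ κ : Σ i, Σ j, M i j, star (b κ) * (1 - h' κ.1) * b κ) :=
        Pos.sum _ _ fun κ _ => (hp1' κ.1).conj (b κ)
      have h3 := h2.add hup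
      have e3 : ∑ κ : Σ i, Σ j, M i j, star (b κ) * (1 - h' κ.1) * b κ =
          ∑ κ, star (b κ) * b κ - ∑ κ, star (b κ) * h' κ.1 * b κ := by
        rw [← Finset.sum_sub_distrib]
        refine Finset.sum_congr rfl fun κ _ => ?_
        rw [mul_sub, sub_mul, mul_one]
      rw [e3] at h3
      rw [Complex.ofReal_one, one_smul]
      convert h3 using 1
      change _ - star (∑ κ, yy P M v x ρ κ * b κ) * (∑ κ, yy P M v x ρ κ * b κ) = _
      abel
    have hxxR : RN (fun i (k : Σ j, M i j) => xh ⟨i, k⟩ - y2 P M v xr i k) ≤ c ^ 2 := by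
      rw [RN_flat]
      exact hx3
    have hxrR : RN xr ≤ 1 := by
      rw [RN_flat]
      refine row_le (fun κ : Σ i, K i => xr κ.1 κ.2) 1 (by norm_num) fun b => ?_
      refine orth_row _ 1 (by norm_num) (fun κ l hκl => hor κ.1 κ.2 l.1 l.2 hκl) (fun κ => ?_) b
      change Pos (((1 : ℝ) : ℂ) • 1 - star (x κ.1 κ.2 * ρ κ.1) * (x κ.1 κ.2 * ρ κ.1))
      rw [hxr', Complex.ofReal_one, one_smul]
      exact hp1' κ.1
    have hxR : RN x ≤ 1 := by
      rw [RN_flat]
      refine row_le (fun κ : Σ i, K i => x κ.1 κ.2) 1 (by norm_num) fun b => ?_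
      refine orth_row _ 1 (by norm_num) (fun κ l hκl => ho κ.1 κ.2 l.1 l.2 hκl) (fun κ => ?_) b
      change Pos (((1 : ℝ) : ℂ) • 1 - star (x κ.1 κ.2) * (x κ.1 κ.2))
      rw [hx, Complex.ofReal_one, one_smul]
      exact hh1 κ.1
    have hxsR : RN (fun i k => xr i k - x i k) ≤ (√s) ^ 2 := by
      rw [Real.sq_sqrt hs.le, RN_flat]
      refine row_le (fun κ : Σ i, K i => xr κ.1 κ.2 - x κ.1 κ.2) s hs.le fun b => ?_
      have e0 : ∀ i k, xr i k - x i k = x i k * (ρ i - 1) := fun i k => by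
        rw [hxr, mul_sub, mul_one]
      refine orth_row _ s hs.le (fun κ l hκl => ?_) (fun κ => ?_) b
      · simp only [e0]
        calc star (x κ.1 κ.2 * (ρ κ.1 - 1)) * (x l.1 l.2 * (ρ l.1 - 1)) =
            star (ρ κ.1 - 1) * (star (x κ.1 κ.2) * x l.1 l.2) * (ρ l.1 - 1) := by
              rw [star_mul]; simp only [mul_assoc]
          _ = 0 := by rw [ho κ.1 κ.2 l.1 l.2 hκl]; simp
      · simp only [e0]
        have e4 : star (x κ.1 κ.2 * (ρ κ.1 - 1)) * (x κ.1 κ.2 * (ρ κ.1 - 1)) =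
            (1 - ρ κ.1) * h κ.1 * (1 - ρ κ.1) := by
          calc star (x κ.1 κ.2 * (ρ κ.1 - 1)) * (x κ.1 κ.2 * (ρ κ.1 - 1)) =
              star (ρ κ.1 - 1) * (star (x κ.1 κ.2) * x κ.1 κ.2) * (ρ κ.1 - 1) := by
                rw [star_mul]; simp only [mul_assoc]
            _ = (ρ κ.1 - 1) * h κ.1 * (ρ κ.1 - 1) := by
                rw [hx, star_sub, star_one, hρ]
            _ = _ := by
                rw [← neg_sub (1 : B) (ρ κ.1), neg_mul, neg_mul_neg]
        rw [e4]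
        exact hρ1 κ.1
    have hψ'cp : ∀ i, CP (psi' (M i) (v i) P (ψ i)) := fun i =>
      psi'_cp (M i) (v i) P hP (ψ i) (hcp i)
    have hψ'1 : ∀ i, Pos (1 - psi' (M i) (v i) P (ψ i) 1) := fun i =>
      psi'_one (M i) (v i) P hP hPP (ψ i) (hcp i) (h1 i) (hv i)
    have T1 := est_diff hPSI (fun i => psi' (M i) (v i) P (ψ i)) hψ'cp hψ'1
      (fun i (k : Σ j, M i j) => xh ⟨i, k⟩) (y2 P M v xr) c hc0 hxhR hyR hxxR z
    rw [Q_psi' P M v xr ψ hP z] at T1
    have hPn : ∀ j, ‖P j‖ ≤ 1 := by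
      intro j
      have h5 : ‖P j‖ * ‖P j‖ = ‖P j‖ := by
        rw [← CStarRing.norm_star_mul_self, hP, hPP, if_pos rfl]
      nlinarith [norm_nonneg (P j)]
    have hPz : ∀ j j', ‖P j * z * P j'‖ ≤ ‖z‖ := by
      intro j j'
      calc ‖P j * z * P j'‖ ≤ ‖P j‖ * ‖z‖ * ‖P j'‖ :=
            (norm_mul_le _ _).trans (mul_le_mul_of_nonneg_right (norm_mul_le _ _) (norm_nonneg _))
        _ ≤ 1 * ‖z‖ * 1 := by
            have := hPn j; have := hPn j'; gcongr
        _ = ‖z‖ := by ring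
    have T2 : ∀ j j', ‖Q (fun i => chi M v i j * ψ i (P j * z * P j') * chi M v i j') xr xr -
        Phi ψ x (P j * z * P j')‖ ≤ 2 * (√δ + √s) * ‖z‖ := by
      intro j j'
      have a1 := est_chi hPSI ψ hcp h1 xr hxrR (fun i => chi M v i j) (fun i => chi M v i j')
        (fun i => chi_herm M v i j) (fun i => chi_sq M v hv i j) (fun i => chi_herm M v i j')
        (P j) (P j') (P j * z * P j') δ hδ.le (hP j) (by rw [hPP, if_pos rfl]) (hP j')
        (by rw [hPP, if_pos rfl])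
        (by rw [← mul_assoc, ← mul_assoc, hPP, if_pos rfl])
        (by rw [mul_assoc, hPP, if_pos rfl])
        (fun i => hv3 i j) (fun i => hv3 i j')
      have a2 := est_diff hPSI ψ hcp h1 xr x (√s) (Real.sqrt_nonneg s) hxrR hxR hxsR
        (P j * z * P j')
      have a3 := hPz j j'
      have e5 : Q (fun i => chi M v i j * ψ i (P j * z * P j') * chi M v i j') xr xr -
          Phi ψ x (P j * z * P j') =
          -(Q (fun i => ψ i (P j * z * P j')) xr xr -
            Q (fun i => chi M v i j * ψ i (P j * z * P j') * chi M v i j') xr xr) +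
          (Q (fun i => ψ i (P j * z * P j')) xr xr - Q (fun i => ψ i (P j * z * P j')) x x) := by
        have : Phi ψ x (P j * z * P j') = Q (fun i => ψ i (P j * z * P j')) x x := rfl
        rw [this]; abel
      rw [e5]
      refine (norm_add_le _ _).trans ?_
      rw [norm_neg]
      have a4 : 2 * √δ * ‖P j * z * P j'‖ ≤ 2 * √δ * ‖z‖ := by gcongr
      have a5 : 2 * √s * ‖P j * z * P j'‖ ≤ 2 * √s * ‖z‖ := by gcongr
      linarith
    have T3 : ‖∑ j, ∑ j', P j * Q (fun i => chi M v i j * ψ i (P j * z * P j') * chi M v i j')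
        xr xr * P j' - ∑ j, ∑ j', P j * Phi ψ x (P j * z * P j') * P j'‖ ≤
        (N : ℝ) ^ 2 * (2 * (√δ + √s) * ‖z‖) := by
      rw [← Finset.sum_sub_distrib]
      have b1 : ∀ j, ‖∑ j', P j * Q (fun i => chi M v i j * ψ i (P j * z * P j') * chi M v i j')
          xr xr * P j' - ∑ j', P j * Phi ψ x (P j * z * P j') * P j'‖ ≤
          (N : ℝ) * (2 * (√δ + √s) * ‖z‖) := by
        intro j
        rw [← Finset.sum_sub_distrib]
        refine (norm_sum_le _ _).trans ?_
        have b2 : ∀ j' ∈ (Finset.univ : Finset (Fin N)),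
            ‖P j * Q (fun i => chi M v i j * ψ i (P j * z * P j') * chi M v i j') xr xr * P j' -
              P j * Phi ψ x (P j * z * P j') * P j'‖ ≤ 2 * (√δ + √s) * ‖z‖ := by
          intro j' _
          rw [← sub_mul, ← mul_sub]
          refine ((norm_mul_le _ _).trans (mul_le_mul_of_nonneg_right (norm_mul_le _ _)
            (norm_nonneg _))).trans ?_
          have b3 := T2 j j'
          calc ‖P j‖ * ‖Q (fun i => chi M v i j * ψ i (P j * z * P j') * chi M v i j') xr xr -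
              Phi ψ x (P j * z * P j')‖ * ‖P j'‖ ≤ 1 * (2 * (√δ + √s) * ‖z‖) * 1 := by
                have := hPn j; have := hPn j'; gcongr
            _ = _ := by ring
        refine (Finset.sum_le_sum b2).trans ?_
        simp
      refine (norm_sum_le _ _).trans ((Finset.sum_le_sum fun j _ => b1 j).trans ?_)
      simp only [Finset.sum_const, Finset.card_univ, Fintype.card_fin, nsmul_eq_mul]
      linarith [sq (N : ℝ)]
    have T4 : ‖Phi (fun i => psi' (M i) (v i) P (ψ i)) (fun i k => xh ⟨i, k⟩) z -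
        ∑ j, ∑ j', P j * Phi ψ x (P j * z * P j') * P j'‖ ≤
        2 * c * ‖z‖ + (N : ℝ) ^ 2 * (2 * (√δ + √s) * ‖z‖) := by
      refine (norm_sub_le_norm_sub_add_norm_sub _ _ _).trans (add_le_add T1 T3)
    refine T4.trans ?_
    have hcs : c ≤ √c := Real.le_sqrt_of_sq_le (by nlinarith)
    have hz0 := norm_nonneg z
    have hd0 := Real.sqrt_nonneg δ
    have hs0 := Real.sqrt_nonneg s
    have hc00 := Real.sqrt_nonneg c
    have hN : 0 ≤ (N : ℝ) ^ 2 := by positivity
    have i1 : 2 * c * ‖z‖ ≤ ‖z‖ * (10 * √c) := by nlinarith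
    have i2 : (N : ℝ) ^ 2 * (2 * (√δ + √s) * ‖z‖) ≤ ‖z‖ * (10 * (N : ℝ) ^ 2 * (√δ + √s)) := by
      have : 0 ≤ (N : ℝ) ^ 2 * ((√δ + √s) * ‖z‖) := by positivity
      nlinarith
    rw [mul_add]
    linarith

end cut

theorem t_CUT (hRON : S_RON) (hCS : S_CS) (hPSI : S_PSI) (hEIG : S_EIG) : S_CUT := by
  intro B _ N P ι _ _ K _ _ ψ x h e δ s hP hPP _ hcp h1 ho hx hh hh1 he hδ _ hs hs1 hed hQ
  have hE := fun i j => hEIG (K i) (ψ i (P j)) δ
    (cp_pos (ψ i) (hcp i) ⟨P j, by rw [hP, hPP, if_pos rfl]⟩) hδ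
  choose M fM dM v hv1 hv2 hv3 using hE
  obtain ⟨x', h', a1, a2, a3, a4, a5⟩ := cut_core P M v x hRON hCS hPSI ψ h e δ s hP hPP hcp h1 ho
    hx hh hh1 he hδ hs hs1 hed hQ hv1 hv2 hv3
  exact ⟨fun i => Σ j, M i j, fun i => inferInstance, fun i => inferInstance, fun i k => k.1, x', h',
    fun i => psi' (M i) (v i) P (ψ i), fun i => psi'_cp (M i) (v i) P hP (ψ i) (hcp i),
    fun i => psi'_one (M i) (v i) P hP hPP (ψ i) (hcp i) (h1 i) (hv1 i), a1, a2, a3, a4, a5⟩

end Run7.h450.CE
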