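import Mathlib

/-!
# Coloured entropy of the canonical map of a Cuntz-Krieger algebra: definitions
-/

set_option autoImplicit false
open Filter Topology

namespace Run7.h450.CE

/-- `x = c* c`: positive elements of a C*-algebra, positive semidefinite complex matrices -/
def Pos {A : Type*} [Mul A] [Star A] (x : A) : Prop := ∃ c : A, x = star c * c

/-- complete positivity of a map: `∑ bᵢ* T(aᵢ* aⱼ) bⱼ ≥ 0` -/
def CP {A B : Type*} [NonUnitalSemiring A] [Star A] [NonUnitalSemiring B] [Star B] (T : A → B) :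
    Prop :=
  ∀ (n : ℕ) (a : Fin n → A) (b : Fin n → B),
    Pos (∑ i, ∑ j, star (b i) * T (star (a i) * a j) * b j)

/-- order zero: orthogonal positive elements of `⊕ᵢ M_{K i}` are sent to orthogonal elements by the
map `(aᵢ) ↦ ∑ φᵢ(aᵢ)` -/
def OZ {B : Type} [CStarAlgebra B] {ι : Type} [Fintype ι] {K : ι → Type} [∀ i, Fintype (K i)]
    (φ : ∀ i, Matrix (K i) (K i) ℂ →ₗ[ℂ] B) : Prop :=
  ∀ a a' : ∀ i, Matrix (K i) (K i) ℂ, (∀ i, Pos (a i)) → (∀ i, Pos (a' i)) →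
    (∀ i, a i * a' i = 0) → (∑ i, φ i (a i)) * (∑ i, φ i (a' i)) = 0

/-- A system `B → F = F⁽⁰⁾ ⊕ … ⊕ F⁽ᵈ⁾ → B` with `F = ⊕ᵢ M_{K i}`, `F⁽ᶜ⁾` the sum of the blocks of
colour `c`; `ψ` completely positive contractive, `φ` completely positive, contractive and of order
zero on each colour. -/
structure Sys (d : ℕ) (B : Type) [CStarAlgebra B] where
  ι : Type
  fι : Fintype ι
  K : ι → Type
  fK : ∀ i, Fintype (K i)
  dK : ∀ i, DecidableEq (K i)
  col : ι → Fin (d + 1)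
  ψ : ∀ i, B →ₗ[ℂ] Matrix (K i) (K i) ℂ
  φ : ∀ i, Matrix (K i) (K i) ℂ →ₗ[ℂ] B
  ψ_cp : ∀ i, CP (ψ i)
  ψ_one : ∀ i, Pos (1 - ψ i 1)
  φ_cp : ∀ i, CP (φ i)
  φ_one : ∀ c, Pos (1 - ∑ i : {i // col i = c}, φ i.1 1)
  φ_oz : ∀ c, OZ (fun i : {i // col i = c} => φ i.1)

attribute [instance] Sys.fι Sys.fK Sys.dK

namespace Sys
variable {d : ℕ} {B : Type} [CStarAlgebra B]

/-- `φ ∘ ψ` -/
noncomputable def T (s : Sys d B) (x : B) : B := ∑ i, s.φ i (s.ψ i x)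

/-- the rank of `F` -/
def rank (s : Sys d B) : ℕ := ∑ i, Fintype.card (s.K i)

end Sys

/-- nuclear dimension at most `d` -/
def NucDimLE (d : ℕ) (B : Type) [CStarAlgebra B] : Prop :=
  ∀ (G : Finset B) (ε : ℝ), 0 < ε → ∃ s : Sys d B, ∀ b ∈ G, ‖s.T b - b‖ < ε

/-- nuclear dimension equal to `d` -/
def IsNucDim (d : ℕ) (B : Type) [CStarAlgebra B] : Prop :=
  NucDimLE d B ∧ ∀ d' < d, ¬ NucDimLE d' B

/-- `r_nuc(d, G, ε)` -/
noncomputable def rnuc (d : ℕ) {B : Type} [CStarAlgebra B] (G : Set B) (ε : ℝ) : ENNReal :=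
  ⨅ (s : Sys d B) (_ : ∀ b ∈ G, ‖s.T b - b‖ < ε), (s.rank : ENNReal)

/-- `F ∪ θ(F) ∪ … ∪ θⁿ⁻¹(F)` -/
def orb {B : Type} (θ : B → B) (F : Finset B) (n : ℕ) : Set B :=
  {b | ∃ j < n, ∃ x ∈ F, b = θ^[j] x}

/-- coloured entropy -/
noncomputable def htNuc (d : ℕ) {B : Type} [CStarAlgebra B] (θ : B → B) : EReal :=
  ⨆ (F : Finset B) (ε : ℝ) (_ : 0 < ε),
    limsup (fun n : ℕ => ENNReal.log (rnuc d (orb θ F n) ε) / ((n : ℕ) : EReal)) atTop

/-- a generating Cuntz-Krieger family -/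
structure CK {N : ℕ} (A : Matrix (Fin N) (Fin N) ℕ) {B : Type} [CStarAlgebra B] (S : Fin N → B) :
    Prop where
  isom : ∀ i, S i * star (S i) * S i = S i
  sum_one : ∑ i, S i * star (S i) = 1
  rel : ∀ i, star (S i) * S i = ∑ j, (A i j : ℂ) • (S j * star (S j))
  gen : (StarAlgebra.adjoin ℂ (Set.range S)).topologicalClosure = ⊤

/-- the canonical map -/
noncomputable def theta {N : ℕ} {B : Type} [CStarAlgebra B] (S : Fin N → B) (x : B) : B :=
  ∑ i, S i * x * star (S i)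

/-- the range projections -/
noncomputable def PP {N : ℕ} {B : Type} [CStarAlgebra B] (S : Fin N → B) (j : Fin N) : B :=
  S j * star (S j)

def ZeroOne {N : ℕ} (A : Matrix (Fin N) (Fin N) ℕ) : Prop := ∀ i j, A i j = 0 ∨ A i j = 1

def Irred {N : ℕ} (A : Matrix (Fin N) (Fin N) ℕ) : Prop := ∀ i j, ∃ m, 0 < m ∧ 0 < (A ^ m) i j

/-- spectral radius -/
noncomputable def rA {N : ℕ} (A : Matrix (Fin N) (Fin N) ℕ) : ℝ :=
  (spectralRadius ℂ (A.map (fun n => (n : ℂ)))).toReal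

/-- admissible words -/
def Adm {N : ℕ} (A : Matrix (Fin N) (Fin N) ℕ) {n : ℕ} (x : Fin (n + 1) → Fin N) : Prop :=
  ∀ k : Fin n, A (x k.castSucc) (x k.succ) = 1

/-- A compatible system: the completely positive maps back are given by rows of elements `x` with
`x_k* x_l = 0` for `k ≠ l` of the same colour and `x_k* x_k = h_i` in the block `i`, and each
`x_k` is below one of the projections `P j`. -/
structure CSys (d : ℕ) {N : ℕ} (B : Type) [CStarAlgebra B] (P : Fin N → B) where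
  ι : Type
  fι : Fintype ι
  K : ι → Type
  fK : ∀ i, Fintype (K i)
  dK : ∀ i, DecidableEq (K i)
  col : ι → Fin (d + 1)
  j : ∀ i, K i → Fin N
  x : ∀ i, K i → B
  h : ι → B
  ψ : ∀ i, B →ₗ[ℂ] Matrix (K i) (K i) ℂ
  ψ_cp : ∀ i, CP (ψ i)
  ψ_one : ∀ i, Pos (1 - ψ i 1)
  Px : ∀ i k, P (j i k) * x i k = x i k
  orth : ∀ i k i' k', col i = col i' → (⟨i, k⟩ : Σ i, K i) ≠ ⟨i', k'⟩ → star (x i k) * x i' k' = 0
  mod : ∀ i k, star (x i k) * x i k = h i
  h_le : ∀ i, Pos (1 - h i)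

attribute [instance] CSys.fι CSys.fK CSys.dK

namespace CSys
variable {d N : ℕ} {B : Type} [CStarAlgebra B] {P : Fin N → B}

noncomputable def T (c : CSys d B P) (z : B) : B :=
  ∑ i, ∑ k, ∑ l, (c.ψ i z k l) • (c.x i k * star (c.x i l))

/-- number of indices over `j` -/
def cnt (c : CSys d B P) (j : Fin N) : ℕ :=
  ∑ i, (Finset.univ.filter (fun k => c.j i k = j)).card

end CSys

/-- the operation `D ↦ ∑ Sᵢ D(Sᵢ* · Sⱼ) Sⱼ*` on linear maps -/
noncomputable def Tst {N : ℕ} {B : Type} [CStarAlgebra B] (S : Fin N → B) (D : B → B) (x : B) : B :=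
  ∑ i, ∑ j, S i * D (star (S i) * x * S j) * star (S j)

end Run7.h450.CE
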