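import Pool.Agent.Run7.h450.CE.Gram2

/-! Estimates for the cut. -/

set_option autoImplicit false
set_option linter.unusedSectionVars false
open Filter Topology Matrix
open scoped ComplexOrder

namespace Run7.h450.CE

section est
variable {B : Type} [CStarAlgebra B] {ι : Type} [Fintype ι] {K : ι → Type}
    [∀ i, Fintype (K i)] [∀ i, DecidableEq (K i)]

theorem RN_eq_Q (x : ∀ i, K i → B) : RN x = ‖Q (fun _ => 1) x x‖ := by
  unfold RN Q
  congr 1
  refine Finset.sum_congr rfl fun i _ => Finset.sum_congr rfl fun k _ => ?_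
  simp [Matrix.one_apply, ite_smul]

theorem RN_flat (x : ∀ i, K i → B) :
    RN x = ‖∑ κ : Σ i, K i, x κ.1 κ.2 * star (x κ.1 κ.2)‖ := by
  unfold RN
  rw [Fintype.sum_sigma]

theorem est_diff (hPSI : S_PSI) (ψ : ∀ i, B →ₗ[ℂ] Matrix (K i) (K i) ℂ) (hcp : ∀ i, CP (ψ i))
    (h1 : ∀ i, Pos (1 - ψ i 1)) (x y : ∀ i, K i → B) (r : ℝ) (hr : 0 ≤ r) (hx : RN x ≤ 1)
    (hy : RN y ≤ 1) (hxy : RN (fun i k => x i k - y i k) ≤ r ^ 2) (z : B) :
    ‖Q (fun i => ψ i z) x x - Q (fun i => ψ i z) y y‖ ≤ 2 * r * ‖z‖ := by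
  have key : ∀ a b : ∀ i, K i → B, ‖Q (fun i => ψ i z) a b‖ ≤ ‖z‖ * √(RN a) * √(RN b) := by
    intro a b
    have h := hPSI B ι K ψ (fun _ => 1) 1 z 1 a b hcp h1 (by simp) (by simp) (by simp) (by norm_num)
      (fun i => by
        have := h1 i
        simpa using this)
    simp only [one_mul, Real.sqrt_one] at h
    exact h
  have e : Q (fun i => ψ i z) x x - Q (fun i => ψ i z) y y =
      Q (fun i => ψ i z) (fun i k => x i k - y i k) x +
        Q (fun i => ψ i z) y (fun i k => x i k - y i k) := by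
    rw [Q_sub_x, Q_sub_y]; abel
  have hsr : √(RN (fun i k => x i k - y i k)) ≤ r := by
    rw [Real.sqrt_le_left hr]; exact hxy
  have hsx : √(RN x) ≤ 1 := by rw [Real.sqrt_le_left (by norm_num)]; simpa using hx
  have hsy : √(RN y) ≤ 1 := by rw [Real.sqrt_le_left (by norm_num)]; simpa using hy
  rw [e]
  refine (norm_add_le _ _).trans ?_
  have k1 := key (fun i k => x i k - y i k) x
  have k2 := key y (fun i k => x i k - y i k)
  have k3 : ‖z‖ * √(RN (fun i k => x i k - y i k)) * √(RN x) ≤ ‖z‖ * r * 1 := by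
    gcongr
  have k4 : ‖z‖ * √(RN y) * √(RN (fun i k => x i k - y i k)) ≤ ‖z‖ * 1 * r := by
    gcongr
  linarith

theorem RN_chi (χ : ∀ i, Matrix (K i) (K i) ℂ) (hχ1 : ∀ i, (χ i)ᴴ = χ i)
    (hχ2 : ∀ i, χ i * χ i = χ i) (x : ∀ i, K i → B) :
    RN (fun i k => ∑ l, star (χ i k l) • x i l) ≤ RN x := by
  rw [RN_eq_Q, RN_eq_Q, ← Q_conj (fun _ => 1) χ χ x x]
  have hp : ∀ i, Pos ((χ i)ᴴ * 1 * χ i) := fun i => ⟨χ i, by
    rw [Matrix.star_eq_conjTranspose, Matrix.mul_one]⟩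
  have hp2 : ∀ i, Pos (1 - (χ i)ᴴ * 1 * χ i) := fun i => ⟨1 - χ i, by
    rw [Matrix.star_eq_conjTranspose, Matrix.conjTranspose_sub, Matrix.conjTranspose_one, hχ1,
      Matrix.mul_one, hχ2, Matrix.sub_mul, Matrix.one_mul, Matrix.mul_sub, Matrix.mul_one, hχ2,
      sub_self, sub_zero]⟩
  refine (Q_pos _ x hp).norm_le ?_
  rw [← Q_sub_m]
  exact Q_pos _ x hp2

theorem est_chi (hPSI : S_PSI) (ψ : ∀ i, B →ₗ[ℂ] Matrix (K i) (K i) ℂ) (hcp : ∀ i, CP (ψ i))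
    (h1 : ∀ i, Pos (1 - ψ i 1)) (x : ∀ i, K i → B) (hx : RN x ≤ 1) (χ χ' : ∀ i, Matrix (K i) (K i) ℂ)
    (hχ1 : ∀ i, (χ i)ᴴ = χ i) (hχ2 : ∀ i, χ i * χ i = χ i)
    (hχ1' : ∀ i, (χ' i)ᴴ = χ' i) (P P' z : B) (δ : ℝ) (hδ : 0 ≤ δ) (hP : star P = P)
    (hPP : P * P = P) (hP' : star P' = P') (hPP' : P' * P' = P') (hz : P * z = z) (hz' : z * P' = z)
    (hd : ∀ i, Pos ((δ : ℂ) • (1 : Matrix (K i) (K i) ℂ) - (1 - χ i) * ψ i P * (1 - χ i)))
    (hd' : ∀ i, Pos ((δ : ℂ) • (1 : Matrix (K i) (K i) ℂ) - (1 - χ' i) * ψ i P' * (1 - χ' i))) :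
    ‖Q (fun i => ψ i z) x x - Q (fun i => χ i * ψ i z * χ' i) x x‖ ≤ 2 * √δ * ‖z‖ := by
  have hsx : √(RN x) ≤ 1 := by rw [Real.sqrt_le_left (by norm_num)]; simpa using hx
  have hg : ∀ i, (1 - χ i)ᴴ = 1 - χ i := fun i => by
    rw [Matrix.conjTranspose_sub, Matrix.conjTranspose_one, hχ1]
  have hg' : ∀ i, (1 - χ' i)ᴴ = 1 - χ' i := fun i => by
    rw [Matrix.conjTranspose_sub, Matrix.conjTranspose_one, hχ1']
  have e : Q (fun i => ψ i z) x x - Q (fun i => χ i * ψ i z * χ' i) x x =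
      Q (fun i => (1 - χ i) * ψ i z) x x + Q (fun i => χ i * ψ i z * (1 - χ' i)) x x := by
    rw [← Q_sub_m, ← Q_add_m]
    congr 1
    funext i
    rw [Matrix.sub_mul, Matrix.one_mul, Matrix.mul_sub, Matrix.mul_one]
    abel
  have k1 : ‖Q (fun i => (1 - χ i) * ψ i z) x x‖ ≤ √δ * ‖z‖ := by
    have h := hPSI B ι K ψ (fun i => 1 - χ i) P z δ x x hcp h1 hP hPP hz hδ
      (fun i => by rw [hg]; exact hd i)
    refine h.trans ?_
    change √δ * ‖z‖ * √(RN x) * √(RN x) ≤ _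
    calc √δ * ‖z‖ * √(RN x) * √(RN x) ≤ √δ * ‖z‖ * 1 * 1 := by gcongr
      _ = _ := by ring
  have k2 : ‖Q (fun i => χ i * ψ i z * (1 - χ' i)) x x‖ ≤ √δ * ‖z‖ := by
    rw [← norm_star, Q_star]
    set y : ∀ i, K i → B := fun i k => ∑ l, star (χ i k l) • x i l with hy
    have hyR : RN y ≤ 1 := (RN_chi χ hχ1 hχ2 x).trans hx
    have hsy : √(RN y) ≤ 1 := by rw [Real.sqrt_le_left (by norm_num)]; simpa using hyR
    have e2 : Q (fun i => (χ i * ψ i z * (1 - χ' i))ᴴ) x x =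
        Q (fun i => (1 - χ' i) * ψ i (star z)) x y := by
      have e3 : (fun i => (χ i * ψ i z * (1 - χ' i))ᴴ) =
          fun i => (1 : Matrix (K i) (K i) ℂ)ᴴ * ((1 - χ' i) * ψ i (star z)) * χ i := by
        funext i
        rw [Matrix.conjTranspose_mul, Matrix.conjTranspose_mul, hg', hχ1, ← cp_star (ψ i) (hcp i),
          Matrix.conjTranspose_one, Matrix.one_mul, Matrix.mul_assoc]
      rw [e3, Q_conj (fun i => (1 - χ' i) * ψ i (star z)) (fun _ => 1) χ x x]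
      congr 1
      funext i k
      simp [Matrix.one_apply, ite_smul, apply_ite]
    rw [e2]
    have h := hPSI B ι K ψ (fun i => 1 - χ' i) P' (star z) δ x y hcp h1 hP' hPP'
      (by rw [← hP', ← star_mul, hz']) hδ (fun i => by rw [hg']; exact hd' i)
    refine h.trans ?_
    rw [norm_star]
    change √δ * ‖z‖ * √(RN x) * √(RN y) ≤ _
    calc √δ * ‖z‖ * √(RN x) * √(RN y) ≤ √δ * ‖z‖ * 1 * 1 := by gcongr
      _ = _ := by ring
  rw [e]
  refine (norm_add_le _ _).trans ?_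
  linarith

end est

end Run7.h450.CE
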