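import Pool.Agent.Run7.h450.CE.Cp

/-! Functional calculus for the cut. -/

set_option autoImplicit false
open Filter Topology Matrix
open scoped ComplexOrder

namespace Run7.h450.CE

section fc
variable {B : Type} [CStarAlgebra B]

attribute [local instance] CStarAlgebra.spectralOrder CStarAlgebra.spectralOrderedRing

theorem real_smul' (r : ℝ) (x : B) : (r : ℂ) • x = r • x :=
  (RCLike.real_smul_eq_coe_smul (K := ℂ) r x).symm

theorem fc (h : B) (hp : Pos h) (h1 : Pos (1 - h)) (s : ℝ) (hs : 0 < s) :
    ∃ ρ h' : B, star ρ = ρ ∧ ρ * h * ρ = h' ∧ Pos h' ∧ Pos (1 - h') ∧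
      Pos (h' - (s : ℂ) • (ρ * ρ)) ∧ Pos ((s : ℂ) • (1 : B) - (1 - ρ) * h * (1 - ρ)) := by
  have hsa : IsSelfAdjoint h := hp.sa
  have hnn : 0 ≤ h := pos_iff.1 hp
  have hsp : ∀ t ∈ spectrum ℝ h, 0 ≤ t := fun t ht => spectrum_nonneg_of_nonneg hnn ht
  set f : ℝ → ℝ := fun t => √(max (t - s) 0 / max t s) with hf
  have hms : ∀ t : ℝ, 0 < max t s := fun t => lt_of_lt_of_le hs (le_max_right _ _)
  have hcf : Continuous f := by
    refine Real.continuous_sqrt.comp (Continuous.div (by fun_prop) (by fun_prop) fun t => ?_)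
    exact (hms t).ne'
  have hfsq : ∀ t, f t * f t = max (t - s) 0 / max t s := fun t =>
    Real.mul_self_sqrt (div_nonneg (le_max_right _ _) (hms t).le)
  have hf0 : ∀ t, 0 ≤ f t := fun t => Real.sqrt_nonneg _
  have hftf : ∀ t, 0 ≤ t → f t * t * f t = max (t - s) 0 := by
    intro t ht
    have : f t * t * f t = (f t * f t) * t := by ring
    rw [this, hfsq]
    rcases le_total t s with hts | hts
    · rw [max_eq_right (by linarith : t - s ≤ 0)]; simp
    · rw [max_eq_left hts, div_mul_cancel₀ _ (by linarith : t ≠ 0)]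
  have e1 : cfc (fun t => f t * t * f t) h = cfc f h * h * cfc f h := by
    rw [cfc_mul (fun t => f t * t) f h (by fun_prop) (by fun_prop),
      cfc_mul f (fun t => t) h (by fun_prop) (by fun_prop), cfc_id' ℝ h]
  have e2 : cfc (fun t => f t * t * f t) h = cfc (fun t => max (t - s) 0) h :=
    cfc_congr fun t ht => hftf t (hsp t ht)
  refine ⟨cfc f h, cfc (fun t => max (t - s) 0) h, ?_, by rw [← e1, e2], ?_, ?_, ?_, ?_⟩
  · exact (cfc_predicate f h : IsSelfAdjoint _)
  · rw [pos_iff]
    exact cfc_nonneg fun t _ => le_max_right _ _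
  · have e3 : (1 : B) - cfc (fun t => max (t - s) 0) h =
        (1 - h) + cfc (fun t => t - max (t - s) 0) h := by
      rw [cfc_sub (fun t => t) (fun t => max (t - s) 0) h (by fun_prop) (by fun_prop),
        cfc_id' ℝ h]
      abel
    rw [e3]
    refine h1.add (pos_iff.2 (cfc_nonneg fun t ht => ?_))
    have := hsp t ht
    rcases max_cases (t - s) 0 with h' | h' <;> linarith [h'.1]
  · have e4 : cfc (fun t => max (t - s) 0) h - (s : ℂ) • (cfc f h * cfc f h) =
        cfc (fun t => max (t - s) 0 - s * (f t * f t)) h := by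
      rw [cfc_sub (fun t => max (t - s) 0) (fun t => s * (f t * f t)) h (by fun_prop)
        (by fun_prop), cfc_const_mul s (fun t => f t * f t) h (by fun_prop),
        cfc_mul f f h (by fun_prop) (by fun_prop), real_smul']
    rw [e4, pos_iff]
    refine cfc_nonneg fun t ht => ?_
    rw [hfsq, sub_nonneg]
    have h3 : s / max t s ≤ 1 := by
      rw [div_le_one (hms t)]; exact le_max_right _ _
    calc s * (max (t - s) 0 / max t s) = (s / max t s) * max (t - s) 0 := by ring
      _ ≤ 1 * max (t - s) 0 := mul_le_mul_of_nonneg_right h3 (le_max_right _ _)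
      _ = max (t - s) 0 := one_mul _
  · have e5 : (s : ℂ) • (1 : B) - (1 - cfc f h) * h * (1 - cfc f h) =
        cfc (fun t => s - (1 - f t) * t * (1 - f t)) h := by
      rw [cfc_sub (fun _ => s) (fun t => (1 - f t) * t * (1 - f t)) h (by fun_prop)
        (by fun_prop), cfc_mul (fun t => (1 - f t) * t) (fun t => 1 - f t) h (by fun_prop)
        (by fun_prop), cfc_mul (fun t => 1 - f t) (fun t => t) h (by fun_prop) (by fun_prop),
        cfc_sub (fun _ => (1 : ℝ)) f h (by fun_prop) (by fun_prop), cfc_id' ℝ h, cfc_const s h,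
        cfc_const (1 : ℝ) h, real_smul', Algebra.algebraMap_eq_smul_one,
        Algebra.algebraMap_eq_smul_one, one_smul]
    rw [e5, pos_iff]
    refine cfc_nonneg fun t ht => ?_
    have ht0 := hsp t ht
    have hf1 : f t ≤ 1 := by
      rw [hf]
      refine Real.sqrt_le_one.2 ?_ |>.trans le_rfl
      rw [div_le_one (hms t)]
      rcases max_cases (t - s) 0 with h' | h'
      · rw [h'.1]; exact le_trans (by linarith) (le_max_left t s)
      · rw [h'.1]; exact (hms t).le
    rw [sub_nonneg]
    rcases le_total t s with hts | hts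
    · have h2 : f t = 0 := by
        rw [hf]; simp only
        rw [max_eq_right (by linarith : t - s ≤ 0)]; simp
      rw [h2]; linarith
    · -- 1 - f ≤ 1 - f² = s / t
      have h2 : f t * f t = (t - s) / t := by
        rw [hfsq, max_eq_left (by linarith : (0:ℝ) ≤ t - s), max_eq_left hts]
      have htp : 0 < t := lt_of_lt_of_le hs hts
      have h3 : 1 - f t ≤ s / t := by
        have h4 : 1 - f t ≤ 1 - f t * f t := by nlinarith [hf0 t]
        have h5 : 1 - f t * f t = s / t := by rw [h2]; field_simp; ring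
        linarith
      have h6 : 0 ≤ 1 - f t := by linarith
      calc (1 - f t) * t * (1 - f t) ≤ (s / t) * t * (1 : ℝ) := by
            refine mul_le_mul (mul_le_mul_of_nonneg_right h3 ht0) (by linarith [hf0 t]) h6 ?_
            positivity
        _ = s := by field_simp

end fc

end Run7.h450.CE
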