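import Pool.Agent.Run7.h450.CE.Fc

/-! Gram estimates for the cut. -/

set_option autoImplicit false
set_option linter.unusedSectionVars false
open Filter Topology Matrix
open scoped ComplexOrder

namespace Run7.h450.CE

section gram
variable {B : Type} [CStarAlgebra B] {ι : Type} [Fintype ι] [DecidableEq ι] {K : ι → Type}
    [∀ i, Fintype (K i)] [∀ i, DecidableEq (K i)]

theorem Qchi (M : ι → Type) [∀ i, Fintype (M i)] (v : ∀ i, M i → K i → ℂ) (x : ∀ i, K i → B) :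
    Q (fun i => ∑ κ, vecMulVec (v i κ) (star (v i κ))) x x =
      ∑ q : Σ i, M i, (∑ k, v q.1 q.2 k • x q.1 k) * star (∑ k, v q.1 q.2 k • x q.1 k) := by
  rw [Fintype.sum_sigma]
  unfold Q
  refine Finset.sum_congr rfl fun i _ => ?_
  simp only [Matrix.sum_apply, Matrix.vecMulVec_apply, Pi.star_apply, star_sum, star_smul,
    Finset.sum_smul, Finset.sum_mul, Finset.mul_sum, smul_mul_assoc, mul_smul_comm,
    Finset.smul_sum, smul_smul]
  calc _ = ∑ k, ∑ κ, ∑ l, (v i κ k * star (v i κ l)) • (x i k * star (x i l)) := by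
        refine Finset.sum_congr rfl fun k _ => ?_
        rw [Finset.sum_comm]
    _ = ∑ κ, ∑ k, ∑ l, (v i κ k * star (v i κ l)) • (x i k * star (x i l)) := by
        rw [Finset.sum_comm]
    _ = _ := by
        refine Finset.sum_congr rfl fun κ _ => ?_
        rw [Finset.sum_comm]
        refine Finset.sum_congr rfl fun k _ => Finset.sum_congr rfl fun l _ => ?_
        first | rfl | (congr 1; ring)

theorem conj_sub (R X Y : B) (c : ℂ) : R * (X - c • Y) * R = R * X * R - c • (R * Y * R) := by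
  rw [mul_sub, sub_mul, mul_smul_comm, smul_mul_assoc]

theorem low_j (hCS : S_CS) (M : ι → Type) [∀ i, Fintype (M i)] (v : ∀ i, M i → K i → ℂ) (P : B)
    (x : ∀ i, K i → B) (ρ h' : ι → B) (m : ∀ i, Matrix (K i) (K i) ℂ) (e δ s : ℝ) (he : 0 ≤ e)
    (hδ : 0 < δ) (hs : 0 < s) (hP : star P = P) (hρ : ∀ i, star (ρ i) = ρ i)
    (hρh : ∀ i, Pos (h' i - (s : ℂ) • (ρ i * ρ i)))
    (hm : ∀ i, Pos (m i - (δ : ℂ) • ∑ κ, vecMulVec (v i κ) (star (v i κ))))
    (hQ : ‖(1 - P) * Q m x x * (1 - P)‖ ≤ e) (b : (Σ i, M i) → B) :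
    Pos (((e / (δ * s) : ℝ) : ℂ) • ∑ q, star (b q) * h' q.1 * b q -
      star ((1 - P) * ∑ q : Σ i, M i, (∑ k, v q.1 q.2 k • (x q.1 k * ρ q.1)) * b q) *
        ((1 - P) * ∑ q : Σ i, M i, (∑ k, v q.1 q.2 k • (x q.1 k * ρ q.1)) * b q)) := by
  set A : (Σ i, M i) → B := fun q => (1 - P) * ∑ k, v q.1 q.2 k • x q.1 k with hA
  have hP1 : star (1 - P) = 1 - P := by rw [star_sub, star_one, hP]
  have e1 : (1 - P) * ∑ q : Σ i, M i, (∑ k, v q.1 q.2 k • (x q.1 k * ρ q.1)) * b q =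
      ∑ q, A q * (ρ q.1 * b q) := by
    rw [Finset.mul_sum]
    refine Finset.sum_congr rfl fun q _ => ?_
    have e0 : ∑ k, v q.1 q.2 k • (x q.1 k * ρ q.1) = (∑ k, v q.1 q.2 k • x q.1 k) * ρ q.1 := by
      rw [Finset.sum_mul]
      simp only [smul_mul_assoc]
    rw [e0, hA]
    simp only [mul_assoc]
  have e2 : ∑ q, A q * star (A q) =
      (1 - P) * Q (fun i => ∑ κ, vecMulVec (v i κ) (star (v i κ))) x x * (1 - P) := by
    rw [Qchi, Finset.mul_sum, Finset.sum_mul]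
    refine Finset.sum_congr rfl fun q _ => ?_
    rw [hA]
    simp only [star_mul, hP1, mul_assoc]
  have h1 : ‖∑ q, A q * star (A q)‖ ≤ e / δ := by
    have h2 : Pos ((δ : ℂ) • ∑ q, A q * star (A q)) :=
      (Pos.sum _ _ fun q _ => pos_mul_star (A q)).smul hδ.le
    have h3 : Pos ((1 - P) * Q m x x * (1 - P) - (δ : ℂ) • ∑ q, A q * star (A q)) := by
      have h4 := (Q_pos _ x hm).conj (1 - P)
      rw [Q_sub_m, Q_smul_m, hP1, conj_sub, ← e2] at h4
      exact h4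
    have h5 := h2.norm_le h3
    rw [norm_smul, Complex.norm_real, Real.norm_of_nonneg hδ.le] at h5
    rw [le_div_iff₀ hδ]
    linarith
  have h6 := hCS B (Σ i, M i) A (fun q => ρ q.1 * b q)
  rw [← e1] at h6
  set X := (1 - P) * ∑ q : Σ i, M i, (∑ k, v q.1 q.2 k • (x q.1 k * ρ q.1)) * b q with hX
  have e3 : ∑ q : Σ i, M i, star (ρ q.1 * b q) * (ρ q.1 * b q) =
      ∑ q : Σ i, M i, star (b q) * (ρ q.1 * ρ q.1) * b q := by
    refine Finset.sum_congr rfl fun q _ => ?_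
    rw [star_mul, hρ]; simp only [mul_assoc]
  have h7 : Pos (((e / δ - ‖∑ q, A q * star (A q)‖ : ℝ) : ℂ) •
      ∑ q : Σ i, M i, star (ρ q.1 * b q) * (ρ q.1 * b q)) :=
    (Pos.sum _ _ fun q _ => pos_star_mul _).smul (by linarith)
  have h8 : Pos (((e / (δ * s) : ℝ) : ℂ) • ∑ q : Σ i, M i,
      star (b q) * (h' q.1 - (s : ℂ) • (ρ q.1 * ρ q.1)) * b q) :=
    (Pos.sum _ _ fun q _ => (hρh q.1).conj (b q)).smul (by positivity)
  have h9 := (h8.add h7).add h6
  convert h9 using 1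
  have e4 : ∑ q : Σ i, M i, star (b q) * (h' q.1 - (s : ℂ) • (ρ q.1 * ρ q.1)) * b q =
      ∑ q : Σ i, M i, star (b q) * h' q.1 * b q -
        (s : ℂ) • ∑ q : Σ i, M i, star (b q) * (ρ q.1 * ρ q.1) * b q := by
    rw [Finset.smul_sum, ← Finset.sum_sub_distrib]
    refine Finset.sum_congr rfl fun q _ => ?_
    rw [mul_sub, sub_mul, mul_smul_comm, smul_mul_assoc]
  rw [e4, e3, smul_sub, smul_smul]
  have e5 : ((e / (δ * s) : ℝ) : ℂ) * (s : ℂ) = ((e / δ : ℝ) : ℂ) := by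
    rw [← Complex.ofReal_mul]; congr 1; field_simp
  rw [e5, Complex.ofReal_sub, sub_smul]
  abel

end gram

end Run7.h450.CE
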