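import Pool.Agent.Run7.h450.CE.Gram

/-! Gram matrix of the cut. -/

set_option autoImplicit false
set_option linter.unusedSectionVars false
open Filter Topology Matrix
open scoped ComplexOrder

namespace Run7.h450.CE

section gram
variable {B : Type} [CStarAlgebra B] {ι : Type} [Fintype ι] [DecidableEq ι] {K : ι → Type}
    [∀ i, Fintype (K i)] [∀ i, DecidableEq (K i)]

theorem w_orth (M : ι → Type) [∀ i, DecidableEq (M i)] (v : ∀ i, M i → K i → ℂ)
    (x : ∀ i, K i → B) (h : ι → B)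
    (ho : ∀ i k i' k', (⟨i, k⟩ : Σ i, K i) ≠ ⟨i', k'⟩ → star (x i k) * x i' k' = 0)
    (hx : ∀ i k, star (x i k) * x i k = h i)
    (hv : ∀ i (κ κ' : M i), ∑ k, star (v i κ k) * v i κ' k = if κ = κ' then 1 else 0)
    (q q' : Σ i, M i) :
    star (∑ k, v q.1 q.2 k • x q.1 k) * (∑ k, v q'.1 q'.2 k • x q'.1 k) =
      if q = q' then h q.1 else 0 := by
  obtain ⟨i, κ⟩ := q
  obtain ⟨i', κ'⟩ := q'
  rw [star_sum, Finset.sum_mul_sum]
  by_cases hi : i = i'
  · subst hi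
    have e1 : ∀ k k', star (v i κ k • x i k) * (v i κ' k' • x i k') =
        if k = k' then (star (v i κ k) * v i κ' k) • h i else 0 := by
      intro k k'
      rw [star_smul, smul_mul_smul_comm]
      by_cases hk : k = k'
      · subst hk
        rw [if_pos rfl, hx]
      · rw [if_neg hk, ho i k i k' (by simpa using hk), smul_zero]
    simp only [e1]
    simp only [Finset.sum_ite_eq, Finset.mem_univ, if_true]
    rw [← Finset.sum_smul, hv]
    by_cases hκ : κ = κ'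
    · subst hκ; simp
    · rw [if_neg hκ, if_neg, zero_smul]
      intro h'
      exact hκ (by simpa using h')
  · rw [if_neg (fun h' => hi (congrArg Sigma.fst h'))]
    refine Finset.sum_eq_zero fun k _ => Finset.sum_eq_zero fun k' _ => ?_
    rw [star_smul, smul_mul_smul_comm, ho i k i' k' (fun h' => hi (congrArg Sigma.fst h')),
      smul_zero]

theorem sum_re {N : ℕ} (M : ι → Fin N → Type) [∀ i j, Fintype (M i j)]
    (F : (Σ i, Σ j, M i j) → B) :
    ∑ κ, F κ = ∑ j, ∑ q : Σ i, M i j, F ⟨q.1, j, q.2⟩ := by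
  rw [Fintype.sum_sigma]
  have e1 : ∀ i, ∑ y : (Σ j, M i j), F ⟨i, y⟩ = ∑ j, ∑ κ : M i j, F ⟨i, j, κ⟩ := fun i =>
    Fintype.sum_sigma _
  have e2 : ∀ j, ∑ q : (Σ i, M i j), F ⟨q.1, j, q.2⟩ = ∑ i, ∑ κ : M i j, F ⟨i, j, κ⟩ := fun j =>
    Fintype.sum_sigma _
  simp only [e1, e2]
  exact Finset.sum_comm

variable {N : ℕ} (P : Fin N → B) (M : ι → Fin N → Type) [∀ i j, Fintype (M i j)]
    [∀ i j, DecidableEq (M i j)] (v : ∀ i j, M i j → K i → ℂ) (x : ∀ i, K i → B) (ρ h' : ι → B)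

noncomputable def yy (κ : Σ i, Σ j, M i j) : B :=
  P κ.2.1 * ∑ k, v κ.1 κ.2.1 κ.2.2 k • (x κ.1 k * ρ κ.1)

theorem gram (hCS : S_CS) (m : ∀ j i, Matrix (K i) (K i) ℂ) (e δ s : ℝ) (he : 0 ≤ e)
    (hδ : 0 < δ) (hs : 0 < s) (hP : ∀ i, star (P i) = P i)
    (hPP : ∀ i i', P i * P i' = if i = i' then P i else 0)
    (hρ : ∀ i, star (ρ i) = ρ i) (hρh : ∀ i, Pos (h' i - (s : ℂ) • (ρ i * ρ i)))
    (hm : ∀ j i, Pos (m j i - (δ : ℂ) • ∑ κ, vecMulVec (v i j κ) (star (v i j κ))))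
    (hQ : ∀ j, ‖(1 - P j) * Q (m j) x x * (1 - P j)‖ ≤ e)
    (ho : ∀ i k i' k', (⟨i, k⟩ : Σ i, K i) ≠ ⟨i', k'⟩ →
      star (x i k * ρ i) * (x i' k' * ρ i') = 0)
    (hx : ∀ i k, star (x i k * ρ i) * (x i k * ρ i) = h' i)
    (hv : ∀ i j (κ κ' : M i j), ∑ k, star (v i j κ k) * v i j κ' k = if κ = κ' then 1 else 0)
    (b : (Σ i, Σ j, M i j) → B) :
    Pos (∑ κ, star (b κ) * h' κ.1 * b κ -
      star (∑ κ, yy P M v x ρ κ * b κ) * (∑ κ, yy P M v x ρ κ * b κ)) ∧
    Pos (star (∑ κ, yy P M v x ρ κ * b κ) * (∑ κ, yy P M v x ρ κ * b κ) -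
      ((1 - e / (δ * s) : ℝ) : ℂ) • ∑ κ, star (b κ) * h' κ.1 * b κ) := by
  set W : Fin N → B := fun j => ∑ q : Σ i, M i j,
    (∑ k, v q.1 j q.2 k • (x q.1 k * ρ q.1)) * b ⟨q.1, j, q.2⟩ with hW
  have e1 : ∑ κ, yy P M v x ρ κ * b κ = ∑ j, P j * W j := by
    rw [sum_re]
    refine Finset.sum_congr rfl fun j _ => ?_
    rw [hW]
    simp only
    rw [Finset.mul_sum]
    refine Finset.sum_congr rfl fun q _ => ?_
    simp only [yy]
    rw [mul_assoc]
  have e2 : star (∑ j, P j * W j) * (∑ j, P j * W j) =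
      ∑ j, star (W j) * (star (P j) * P j) * W j := by
    refine ip_orth P W fun j l hjl => ?_
    rw [hP, hPP, if_neg hjl]
  have e3 : ∑ κ, star (b κ) * h' κ.1 * b κ =
      ∑ j, ∑ q : Σ i, M i j, star (b ⟨q.1, j, q.2⟩) * h' q.1 * b ⟨q.1, j, q.2⟩ := sum_re _ _
  have e4 : ∀ j, star (W j) * W j =
      ∑ q : Σ i, M i j, star (b ⟨q.1, j, q.2⟩) * h' q.1 * b ⟨q.1, j, q.2⟩ := by
    intro j
    have hw := w_orth (fun i => M i j) (fun i => v i j) (fun i k => x i k * ρ i) h' ho hx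
      (fun i => hv i j)
    rw [hW]
    have := ip_orth (fun q : Σ i, M i j => ∑ k, v q.1 j q.2 k • (x q.1 k * ρ q.1))
      (fun q => b ⟨q.1, j, q.2⟩) (fun κ l hκl => by
        have := hw κ l
        rw [if_neg hκl] at this
        exact this)
    rw [this]
    refine Finset.sum_congr rfl fun q _ => ?_
    have h2 := hw q q
    rw [if_pos rfl] at h2
    rw [h2]
  have e5 : ∀ j, star ((1 - P j) * W j) * ((1 - P j) * W j) =
      star (W j) * W j - star (W j) * (star (P j) * P j) * W j := by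
    intro j
    have h1 : star (1 - P j) * (1 - P j) = 1 - star (P j) * P j := by
      rw [star_sub, star_one, hP, hPP, if_pos rfl, sub_mul, one_mul, mul_sub, hPP, if_pos rfl,
        mul_one, sub_self, sub_zero]
    calc star ((1 - P j) * W j) * ((1 - P j) * W j) =
        star (W j) * (star (1 - P j) * (1 - P j)) * W j := by
          rw [star_mul]; simp only [mul_assoc]
      _ = _ := by rw [h1, mul_sub, sub_mul, mul_one]
  rw [e1, e2, e3]
  constructor
  · rw [← Finset.sum_sub_distrib]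
    refine Pos.sum _ _ fun j _ => ?_
    rw [← e4, ← e5]
    exact pos_star_mul _
  · rw [Finset.smul_sum, ← Finset.sum_sub_distrib]
    refine Pos.sum _ _ fun j _ => ?_
    have := low_j hCS (fun i => M i j) (fun i => v i j) (P j) x ρ h' (m j) e δ s he hδ hs (hP j)
      hρ hρh (hm j) (hQ j) (fun q => b ⟨q.1, j, q.2⟩)
    rw [← e4] at this ⊢
    have e6 : star (W j) * (star (P j) * P j) * W j - ((1 - e / (δ * s) : ℝ) : ℂ) •
        (star (W j) * W j) = ((e / (δ * s) : ℝ) : ℂ) • (star (W j) * W j) -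
        star ((1 - P j) * W j) * ((1 - P j) * W j) := by
      rw [e5, Complex.ofReal_sub, sub_smul, Complex.ofReal_one, one_smul]
      abel
    rw [e6]
    exact this

end gram

end Run7.h450.CE
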