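import Pool.Agent.Run7.h450.CE.Defs

/-!
# Project CE (MP_e09b77_an): `ht_nuc(θ_A) = log r(A)`. The pieces.

Each piece is `theorem t_XX : S_XX` (or `S_A → S_B → S_XX` for the listed hypotheses) in namespace
`Run7.<you>.CE`, file `Pool/Agent/Run7/<you>/CE/XX.lean`.
-/

set_option autoImplicit false
open Filter Topology Matrix
open scoped ComplexOrder

namespace Run7.h450.CE

/-- relations of the elements `u i k l = φ i (e_kl)` -/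
structure Rel {B : Type} [CStarAlgebra B] {ι : Type} {K : ι → Type}
    (u : ∀ i, K i → K i → B) : Prop where
  st : ∀ i k l, star (u i k l) = u i l k
  mis : ∀ i k l i' m n, (⟨i, l⟩ : Σ i, K i) ≠ ⟨i', m⟩ → u i k l * u i' m n = 0
  mul : ∀ i k l m, u i k l * u i l m = u i k k * u i k m
  comm : ∀ i k m, u i k k * u i k m = u i k m * u i m m
  pos : ∀ i k, Pos (u i k k)
  le : ∀ i k, Pos (1 - u i k k)

/-- **OZ1** (180 lines). Matrix units under a completely positive contractive order zero map.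
Proof. `u_kl = φ(e_kl)`. `st`: cp maps are *-preserving (take n = 2, b scalar; Pos implies selfadjoint).
`pos`, `le`: `u_kk ≤ φ(1) ≤ 1`. Schwarz: `u_kl* u_kl ≤ u_ll` (cp and `φ(1) ≤ 1`: from CP with
n = 2, a = (e_kl, 1) one gets `φ(x)*φ(x) ≤ φ(x*x)`; e.g. `0 ≤ [φ(x*x), φ(x*); φ(x), φ(1)]`, plug in
b = (b, -φ(x) b)). Order zero on `e_ll`, `e_mm` gives `u_ll u_mm = 0` for different indices (also in
different blocks); hence `u_ll u_mn = 0` (as `u_mn u_mn* ≤ u_mm`) and `u_kl u_mn = 0` (as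
`u_kl* u_kl ≤ u_ll`): this is `mis`. With `h = ∑ φ_i(1) = ∑ u_mm` and `p` a projection of block i,
order zero on `p`, `1 - p` gives `φ(p)² = φ(p) h`. For `p = e_kk`: `h u_kk = u_kk²`; by `mis`
`u_kl h = u_kl u_ll`, `h u_kl = u_kk u_kl`. For `p = ½(e_kk + e_ll + ω e_kl + ω̄ e_lk)`, `|ω| = 1`,
expand with `mis` and compare coefficients of `1, ω, ω̄` (use ω = 1, -1, i, -i):
`u_kk u_kl + u_kl u_ll = 2 u_kl h = 2 u_kl u_ll`, so `comm`; and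
`u_kl u_lk + u_lk u_kl = u_kk² + u_ll²`; then `z = u_kl u_lk - u_kk² = z* ` has
`u_kk z = 0` and `u_lk z = 0` (use the other expression of `z`) so `z² = 0`, `z = 0`: `mul` for m = k.
For distinct k, l, m: `p = ⅓ ∑ ω_i ω̄_j e_ij` over {k,l,m} gives, coefficient of `ω_k ω̄_m`,
`u_kk u_km + u_kl u_lm + u_km u_mm = 3 u_km h = 3 u_km u_mm`, hence `mul`. -/
def S_OZ1 : Prop :=
  ∀ (B : Type) [CStarAlgebra B] (ι : Type) [Fintype ι] [DecidableEq ι] (K : ι → Type)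
    [∀ i, Fintype (K i)] [∀ i, DecidableEq (K i)] (φ : ∀ i, Matrix (K i) (K i) ℂ →ₗ[ℂ] B),
    (∀ i, CP (φ i)) → Pos (1 - ∑ i, φ i 1) → OZ φ →
    Rel (fun i k l => φ i (Matrix.single k l 1))

/-- **OZ2** (120 lines). Rows from the relations: choose a reference index `0` in each nonempty
block, `x_k = lim_{ε→0} u_k0 (u_00 + ε)^{-1/2}`, `h = u_00`. Indeed `x_k* x_l = 0` for `k ≠ l` (`mis`),
`x_k* x_k = lim (u_00+ε)^{-1/2} u_0k u_k0 (u_00+ε)^{-1/2} = lim u_00²/(u_00+ε) = u_00`,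
`x_k x_l* = lim u_k0 (u_00+ε)^{-1} u_0l = lim (u_kk+ε)^{-1} u_k0 u_0l = lim (u_kk+ε)^{-1} u_kk u_kl = u_kl`
(`u_k0 f(u_00) = f(u_kk) u_k0` by `comm`; `u_kl u_kl* = u_kk²`). -/
def S_OZ2 : Prop :=
  ∀ (B : Type) [CStarAlgebra B] (ι : Type) (K : ι → Type) (u : ∀ i, K i → K i → B), Rel u →
    ∃ (x : ∀ i, K i → B) (h : ι → B),
      (∀ i k l, u i k l = x i k * star (x i l)) ∧
      (∀ i k i' k', (⟨i, k⟩ : Σ i, K i) ≠ ⟨i', k'⟩ → star (x i k) * x i' k' = 0) ∧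
      (∀ i k, star (x i k) * x i k = h i) ∧ (∀ i, Pos (h i)) ∧ (∀ i, Pos (1 - h i))

/-- **ON** (120 lines). Orthonormalisation in a C*-algebra.
`G = Y*Y`, `X = lim_{ε→0} Y (G+ε)^{-1/2} H^{1/2}`. The limit exists: with `R_ε = (G+ε)^{-1/2}`,
`‖Y(R_ε-R_δ)H^{1/2}‖² = ‖G^{1/2}(R_ε-R_δ) H (R_ε-R_δ) G^{1/2}‖ ≤ (1-c)⁻¹ ‖G (R_ε-R_δ)‖² ≤
(1-c)⁻¹(√ε+√δ)²` (`H ≤ (1-c)⁻¹ G`, `|t(t+ε)^{-1/2} - √t| ≤ √ε`). `X*X = lim H^{1/2} G (G+ε)⁻¹ H^{1/2} = H`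
as `‖H^{1/2} (ε/(G+ε)) H^{1/2}‖ ≤ (1-c)⁻¹ ε`. `(X-Y)*(X-Y) = (H^{1/2}-G^{1/2})²` and
`0 ≤ H^{1/2}-G^{1/2} ≤ (1-√(1-c)) H^{1/2} ≤ c` by monotonicity of the square root. -/
def S_ON : Prop :=
  ∀ (E : Type) [CStarAlgebra E] [PartialOrder E] [StarOrderedRing E] (Y H : E) (c : ℝ),
    0 ≤ c → c ≤ 1 / 2 → 0 ≤ H → H ≤ 1 → star Y * Y ≤ H → (1 - c) • H ≤ star Y * Y →
    ∃ X : E, star X * X = H ∧ ‖X - Y‖ ≤ c ∧
      ∀ a a' : E, a * Y = Y * a' → Commute a' (star Y * Y) → Commute a' H → a * X = X * a'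

/-- **RON** (150 lines, uses ON). Orthonormalisation of a row over `B`: apply ON in
`E = CStarMatrix (Option M) (Option M) B` with `Y` = row `y` placed in the row `none`,
`H = diag(h)` (0 at `none`); `a = P j` at `(none, none)`, `a' = diag` of the indicator of
`{κ | j κ = j}` (`y_κ* y_λ = 0` if `j κ ≠ j λ`); `a = 1` at `(none,none)`, `a' = 1` shows that only
the row `none` of `X` is nonzero. Positivity in matrices over `B`: `m ≥ 0` iff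
`∑ b_κ* m_κλ b_λ ≥ 0` for all `b`. -/
def S_RON : Prop :=
  ∀ (B : Type) [CStarAlgebra B] (M : Type) [Fintype M] [DecidableEq M] (N : ℕ) (P : Fin N → B)
    (j : M → Fin N) (y h : M → B) (c : ℝ), 0 ≤ c → c ≤ 1 / 2 →
    (∀ i, star (P i) = P i) → (∀ i i', P i * P i' = if i = i' then P i else 0) →
    (∀ κ, P (j κ) * y κ = y κ) → (∀ κ, Pos (h κ)) → (∀ κ, Pos (1 - h κ)) →
    (∀ b : M → B, Pos (∑ κ, star (b κ) * h κ * b κ -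
      star (∑ κ, y κ * b κ) * (∑ κ, y κ * b κ))) →
    (∀ b : M → B, Pos (star (∑ κ, y κ * b κ) * (∑ κ, y κ * b κ) -
      ((1 - c : ℝ) : ℂ) • ∑ κ, star (b κ) * h κ * b κ)) →
    ∃ x : M → B, (∀ κ, P (j κ) * x κ = x κ) ∧
      (∀ κ l, star (x κ) * x l = if κ = l then h κ else 0) ∧
      ‖∑ κ, (x κ - y κ) * star (x κ - y κ)‖ ≤ c ^ 2

/-- **CS** (60 lines). Cauchy-Schwarz for rows and columns over a C*-algebra
(`CStarModule.inner_mul_inner_swap_le` for `C⋆ᵐᵒᵈ B (M → B)`). -/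
def S_CS : Prop :=
  ∀ (B : Type) [CStarAlgebra B] (M : Type) [Fintype M] (a b : M → B),
    Pos (((‖∑ κ, a κ * star (a κ)‖ : ℝ) : ℂ) • (∑ κ, star (b κ) * b κ) -
      star (∑ κ, a κ * b κ) * (∑ κ, a κ * b κ))

/-- **PSI** (150 lines, may use CS). Norm bound. With `r_l = ∑_k (g ψ(z))_kl x_k` (a row),
`∑ r_l r_l* = ∑ (g ψ(z) ψ(z)* g*)_{kk'} x_k x_k'* ≤ ∑ (g ψ(zz*) g*)_{kk'} x_k x_k'* ≤
‖z‖² ∑ (g ψ(P) g*)_{kk'} x_k x_k'* ≤ ‖z‖² δ ∑ x_k x_k*` (Schwarz `ψ(z)ψ(z)* ≤ ψ(zz*)` for cp `ψ` with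
`ψ(1) ≤ 1`; `zz* ≤ ‖z‖² P`; `m ↦ ∑ m_kk' x_k x_k'*` preserves positivity), then
`‖∑ r_l y_l*‖² ≤ ‖∑ r_l r_l*‖ ‖∑ y_l y_l*‖`. -/
def S_PSI : Prop :=
  ∀ (B : Type) [CStarAlgebra B] (ι : Type) [Fintype ι] (K : ι → Type)
    [∀ i, Fintype (K i)] [∀ i, DecidableEq (K i)] (ψ : ∀ i, B →ₗ[ℂ] Matrix (K i) (K i) ℂ)
    (g : ∀ i, Matrix (K i) (K i) ℂ) (P z : B) (δ : ℝ) (x y : ∀ i, K i → B),
    (∀ i, CP (ψ i)) → (∀ i, Pos (1 - ψ i 1)) → star P = P → P * P = P → P * z = z → 0 ≤ δ →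
    (∀ i, Pos ((δ : ℂ) • (1 : Matrix (K i) (K i) ℂ) - g i * ψ i P * (g i)ᴴ)) →
    ‖∑ i, ∑ k, ∑ l, ((g i * ψ i z) k l) • (x i k * star (y i l))‖ ≤
      √δ * ‖z‖ * √‖∑ i, ∑ k, x i k * star (x i k)‖ * √‖∑ i, ∑ k, y i k * star (y i k)‖

/-- **EIG** (80 lines). Eigenvectors of a positive matrix with eigenvalue `≥ δ`
(`M` = subtype of the indices of `Matrix.IsHermitian.eigenvectorBasis`), `χ = ∑ v_κ v_κ*`:
`δ χ ≤ k` and `(1-χ) k (1-χ) ≤ δ`. -/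
def S_EIG : Prop :=
  ∀ (K : Type) [Fintype K] [DecidableEq K] (m : Matrix K K ℂ) (δ : ℝ), Pos m → 0 < δ →
    ∃ (M : Type) (_ : Fintype M) (_ : DecidableEq M) (v : M → K → ℂ),
      (∀ κ κ', ∑ k, star (v κ k) * v κ' k = if κ = κ' then 1 else 0) ∧
      Pos (m - (δ : ℂ) • ∑ κ, Matrix.vecMulVec (v κ) (star (v κ))) ∧
      Pos ((δ : ℂ) • (1 : Matrix K K ℂ) -
        (1 - ∑ κ, Matrix.vecMulVec (v κ) (star (v κ))) * m *
          (1 - ∑ κ, Matrix.vecMulVec (v κ) (star (v κ))))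

/-- the map `z ↦ ∑ ψ_i(z)_kl x_k x_l*` -/
noncomputable def Phi {B : Type} [CStarAlgebra B] {ι : Type} [Fintype ι] {K : ι → Type}
    [∀ i, Fintype (K i)] (ψ : ∀ i, B →ₗ[ℂ] Matrix (K i) (K i) ℂ) (x : ∀ i, K i → B) (z : B) : B :=
  ∑ i, ∑ k, ∑ l, (ψ i z k l) • (x i k * star (x i l))

/-- **CUT** (300 lines, uses RON CS PSI EIG; TAKEN by helper450). One colour. -/
def S_CUT : Prop :=
  ∀ (B : Type) [CStarAlgebra B] (N : ℕ) (P : Fin N → B) (ι : Type) [Fintype ι] [DecidableEq ι]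
    (K : ι → Type) [∀ i, Fintype (K i)] [∀ i, DecidableEq (K i)]
    (ψ : ∀ i, B →ₗ[ℂ] Matrix (K i) (K i) ℂ) (x : ∀ i, K i → B) (h : ι → B) (e δ s : ℝ),
    (∀ i, star (P i) = P i) → (∀ i i', P i * P i' = if i = i' then P i else 0) → ∑ i, P i = 1 →
    (∀ i, CP (ψ i)) → (∀ i, Pos (1 - ψ i 1)) →
    (∀ i k i' k', (⟨i, k⟩ : Σ i, K i) ≠ ⟨i', k'⟩ → star (x i k) * x i' k' = 0) →
    (∀ i k, star (x i k) * x i k = h i) → (∀ i, Pos (h i)) → (∀ i, Pos (1 - h i)) →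
    0 ≤ e → 0 < δ → δ ≤ 1 → 0 < s → s ≤ 1 → e ≤ δ * s / 2 →
    (∀ j, ‖(1 - P j) * Phi ψ x (P j) * (1 - P j)‖ ≤ e) →
    ∃ (K' : ι → Type) (_ : ∀ i, Fintype (K' i)) (_ : ∀ i, DecidableEq (K' i))
      (j : ∀ i, K' i → Fin N) (x' : ∀ i, K' i → B) (h' : ι → B)
      (ψ' : ∀ i, B →ₗ[ℂ] Matrix (K' i) (K' i) ℂ),
      (∀ i, CP (ψ' i)) ∧ (∀ i, Pos (1 - ψ' i 1)) ∧ (∀ i k, P (j i k) * x' i k = x' i k) ∧
      (∀ i k i' k', (⟨i, k⟩ : Σ i, K' i) ≠ ⟨i', k'⟩ → star (x' i k) * x' i' k' = 0) ∧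
      (∀ i k, star (x' i k) * x' i k = h' i) ∧ (∀ i, Pos (1 - h' i)) ∧
      ∀ z : B, ‖Phi ψ' x' z - ∑ j, ∑ j', P j * Phi ψ x (P j * z * P j') * P j'‖ ≤
        ‖z‖ * (10 * √(e / (δ * s)) + 10 * (N : ℝ) ^ 2 * (√δ + √s))

/-- **INI** (150 lines, uses OZ1 OZ2 CUT). Nuclear dimension `≤ d` gives compatible systems: given
`E` and `ε`, take `s, δ` small, then a `Sys` with tiny error on `P_j`, `P_j e P_j'`; OZ1+OZ2 for each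
colour (subtype of `ι`; `φ_i(y) = ∑ y_kl x_k x_l*` by linearity), CUT for each colour (the error `e`:
`Phi_c(P_j) ≤ T(P_j)` so `‖(1-P_j) Phi_c(P_j) (1-P_j)‖ ≤ ‖T(P_j) - P_j‖`), and put the colours
together; `∑_{jj'} P_j T(P_j z P_j') P_j' ≈ ∑ P_j P_j z P_j' P_j' = z`. -/
def S_INI : Prop :=
  ∀ (d : ℕ) (B : Type) [CStarAlgebra B] (N : ℕ) (P : Fin N → B),
    (∀ i, star (P i) = P i) → (∀ i i', P i * P i' = if i = i' then P i else 0) → ∑ i, P i = 1 →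
    NucDimLE d B → ∀ (E : Finset B) (ε : ℝ), 0 < ε → ∃ c : CSys d B P, ∀ z ∈ E, ‖c.T z - z‖ ≤ ε

/-- **TN** (60 lines, may use PSI). `‖c.T z‖ ≤ (d+1) ‖z‖`: for each colour the row `x` has
`‖∑ x_k x_k*‖ ≤ 1` (pairwise orthogonal positive contractions: `a = ∑ x_k x_k*` has `a² ≤ a`), PSI
with `g = 1`, `P = 1`, `δ = 1`. -/
def S_TN : Prop :=
  ∀ (d N : ℕ) (B : Type) [CStarAlgebra B] (P : Fin N → B) (c : CSys d B P) (z : B),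
    ‖c.T z‖ ≤ (d + 1) * ‖z‖

/-- **TOS** (120 lines). A compatible system is a system: `φ_i(y) = ∑ y_kl x_k x_l*`. cp: clear;
`∑_{col i = c} φ_i(1) = ∑ x_k x_k* ≤ 1` (orthogonal positive contractions); order zero:
`φ(a)φ(a') = ∑ a_kl x_k x_l* x_m x_n* a'_mn = ∑ x_k h_i (a a')_kn x_n* = 0`. -/
def S_TOS : Prop :=
  ∀ (d N : ℕ) (B : Type) [CStarAlgebra B] (P : Fin N → B) (c : CSys d B P),
    ∃ s : Sys d B, (∀ z, s.T z = c.T z) ∧ s.rank = ∑ j, c.cnt j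

/-- **STEP** (150 lines). One step: new index set of the block `b`: pairs `(i, κ)` with
`A i (j κ) = 1`, `x' (i,κ) = S_i x_κ`, `j' (i,κ) = i`,
`ψ'(z)_{(i,κ),(i',λ)} = ψ(S_i* z S_i')_{κλ}`, same `h`, same colours. Use
`S_i* S_i' = 0` for `i ≠ i'`, `S_i* S_i P_j = A i j P_j`; `S_i x_κ = 0` if `A i (j κ) = 0`. -/
def S_STEP : Prop :=
  ∀ (d N : ℕ) (A : Matrix (Fin N) (Fin N) ℕ) (B : Type) [CStarAlgebra B] (S : Fin N → B),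
    ZeroOne A → CK A S → ∀ c : CSys d B (PP S), ∃ c' : CSys d B (PP S),
      (∀ z, c'.T z = Tst S c.T z) ∧ ∀ i, c'.cnt i = ∑ j, A i j * c.cnt j

/-- **GOOD** (200 lines). Let `M` be the set of `b` such that for all `ε, C > 0` there are a finite
set `E`, `δ > 0`, `r` with: for every linear `D` with `‖Tst^m D z‖ ≤ C‖z‖` (all m, z) and
`‖D e‖ ≤ δ` on `E`: `‖(Tst^m D) b‖ ≤ ε` for all `m ≥ r`. `M` is a closed subspace; it contains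
`S_μ S_ν*`: with `L D x = ∑ S_i D(S_i* x)` and `R D x = ∑ D(x S_j) S_j*` (they commute, `Tst = L R`),
`L² D (S_i x) = S_i (L D)(x)`, `R² D (x S_i*) = (R D)(x) S_i*` (because `L D (Q_i x) = Q_i L D x`,
`Q_i = S_i* S_i`, `S_i Q_i = S_i`), so `Tst^m D (S_μ S_ν*) = S_μ (L^(m-|μ|) R^(m-|ν|) D)(1) S_ν*`, and
for `D'' = L^s D` (or `R^s D`) `Tst^q D''(1) = θ^(q-1)(∑ S_i D''(Q_i) S_i*)`, where
`‖L^s D (Q_i)‖ ≤ ∑_{|τ|=s} ‖D(S_τ* Q_i)‖`. The span of the `S_μ S_ν*` contains 1 and is stable under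
left multiplication by `S_i`, `S_i*`, so it is dense (`CK.gen`). Finally
`Tst^m D ∘ θ^j = θ^j ∘ Tst^(m-j) D` for `j < m` (from `Tst² D (θ x) = θ (Tst D x)`), `‖θ‖ ≤ 1`. -/
def S_GOOD : Prop :=
  ∀ (N : ℕ) (A : Matrix (Fin N) (Fin N) ℕ) (B : Type) [CStarAlgebra B] (S : Fin N → B),
    ZeroOne A → CK A S → ∀ (b : B) (ε C : ℝ), 0 < ε → 0 < C →
    ∃ (E : Finset B) (δ : ℝ) (r : ℕ), 0 < δ ∧ ∀ D : B →ₗ[ℂ] B,
      (∀ (m : ℕ) (z : B), ‖(Tst S)^[m] D z‖ ≤ C * ‖z‖) → (∀ z ∈ E, ‖D z‖ ≤ δ) →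
      ∀ m j : ℕ, j + r ≤ m → ‖(Tst S)^[m] D ((theta S)^[j] b)‖ ≤ ε

/-- **GR1** (120 lines). Growth: `(1/n) log ∑_i (A^(n+r) v)_i → ≤ log r(A)`, and `r(A) > 0`. Gelfand
(`spectrum.pow_nnnorm_pow_one_div_tendsto_nhds_spectralRadius` with `Matrix.linftyOpNormedRing`);
`∑_i (A^m v)_i ≤ N ‖A^m‖_∞ max v`. -/
def S_GR1 : Prop :=
  ∀ (N : ℕ) (A : Matrix (Fin N) (Fin N) ℕ), 0 < N → ZeroOne A → Irred A →
    0 < rA A ∧ ∀ (v : Fin N → ℕ) (r : ℕ),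
      limsup (fun n : ℕ => ENNReal.log (((∑ i, ((A ^ (n + r)).mulVec v) i : ℕ)) : ENNReal) /
        ((n : ℕ) : EReal)) atTop ≤ ((Real.log (rA A) : ℝ) : EReal)

/-- **GR2** (120 lines). `(1/(n+1)) log ∑_{ij} (A^n)_ij → log r(A)` (limit; Gelfand). -/
def S_GR2 : Prop :=
  ∀ (N : ℕ) (A : Matrix (Fin N) (Fin N) ℕ), 0 < N → ZeroOne A → Irred A →
    Tendsto (fun n : ℕ => Real.log (∑ i, ∑ j, ((A ^ n) i j : ℝ)) / ((n : ℝ) + 1)) atTop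
      (𝓝 (Real.log (rA A)))

/-- **WRD** (60 lines). The number of admissible words of length `n+1` is `∑_{ij} (A^n)_ij`. -/
def S_WRD : Prop :=
  ∀ (N : ℕ) (A : Matrix (Fin N) (Fin N) ℕ), ZeroOne A → ∀ n : ℕ,
    Nat.card {x : Fin (n + 1) → Fin N // Adm A x} = ∑ i, ∑ j, (A ^ n) i j

/-- **NZ** (120 lines). For an admissible word `x` the projection `p = S_x S_x*`,
`S_x = S_{x_0} ⋯ S_{x_n}`, is nonzero and below `θ^k(P_{x_k})`. (All `S_i ≠ 0` by irreducibility and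
`B ≠ 0`; `S_x* S_x = S_{x_n}* S_{x_n}`; induction from the left:
`p' = S_{x_0} p S_{x_0}*`, `θ^{k+1}(P) p' = S_{x_0} θ^k(P) S_{x_0}* S_{x_0} p S_{x_0}*`, where
`S_{x_0}* S_{x_0} p = p` since `p ≤ P_{x_1} ≤ S_{x_0}* S_{x_0}`.) -/
def S_NZ : Prop :=
  ∀ (N : ℕ) (A : Matrix (Fin N) (Fin N) ℕ) (B : Type) [CStarAlgebra B] [Nontrivial B]
    (S : Fin N → B), ZeroOne A → Irred A → CK A S → ∀ (n : ℕ) (x : Fin (n + 1) → Fin N), Adm A x →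
    ∃ p : B, p ≠ 0 ∧ star p = p ∧ p * p = p ∧ ∀ k : Fin (n + 1), (theta S)^[k] (PP S (x k)) * p = p

/-- **CNT** (200 lines). Counting by the Golden-Thompson inequality (available:
`Pool/Agent/H726R2/RD/GT.lean`, `RC14.GT`). For `x ∈ W` some block has an eigenvalue `≥ l` of
`H_x = ∑_k b_k(x_k)`, so `∑_i Tr exp(t H_x) ≥ exp(t l)`. And
`∑_x Tr exp(t ∑_{k<n+1} b_k(x_k)) ≤ ∑_x' Tr (exp(t H_x') ∑_i exp(t b_n(i))) ≤
(N - 1 + e^t) ∑_x' Tr exp(t H_x')` since `e^{tb} ≤ 1 + (e^t-1) b` for `0 ≤ b ≤ 1` and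
`∑_i b_n(i) ≤ 1`. -/
def S_CNT : Prop :=
  ∀ (ι : Type) [Fintype ι] (K : ι → Type) [∀ i, Fintype (K i)] [∀ i, DecidableEq (K i)]
    (N n : ℕ) (b : Fin n → Fin N → ∀ i, Matrix (K i) (K i) ℂ) (W : Finset (Fin n → Fin N))
    (t l : ℝ), 0 < N → (∀ k a i, (b k a i).PosSemidef) →
    (∀ k i, (1 - ∑ a, b k a i).PosSemidef) → 0 ≤ t →
    (∀ x ∈ W, ∀ l' : ℝ, (∀ i, (((l' : ℂ) • (1 : Matrix (K i) (K i) ℂ)) -
      ∑ k, b k (x k) i).PosSemidef) → l ≤ l') →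
    (W.card : ℝ) * Real.exp (t * l) ≤
      ((∑ i, Fintype.card (K i) : ℕ) : ℝ) * ((N : ℝ) - 1 + Real.exp t) ^ n

/-- **LOW** (200 lines, uses CNT NZ). `W` = admissible words of length `n+1`,
`b_k(a) = e^{-1/2} ψ(θ^k(P_a)) e^{-1/2}` with `e = ψ(1) + τ`, `τ = ε/(d+1)`. If
`∑_k b_k(x_k) ≤ l'` then `∑_k ψ(θ^k(P_{x_k})) ≤ l' (ψ(1) + τ)`; apply the positive maps `φ_i`, sum:
`∑_k T(θ^k P_{x_k}) ≤ l' (T(1) + τ (d+1)) ≤ l' (1 + 2ε)`, multiply by the projection `p` of NZ on both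
sides: `(n+1)(1-ε) p ≤ l' (1+2ε) p`. (`φ_i(1)` summed over a colour is `≤ 1`.) -/
def S_LOW : Prop :=
  ∀ (N : ℕ) (A : Matrix (Fin N) (Fin N) ℕ) (B : Type) [CStarAlgebra B] [Nontrivial B]
    (S : Fin N → B), 0 < N → ZeroOne A → Irred A → CK A S → ∀ (d : ℕ) (s : Sys d B) (n : ℕ)
    (ε t : ℝ), 0 < ε → ε < 1 → 0 ≤ t → ‖s.T 1 - 1‖ ≤ ε →
    (∀ (k : ℕ) (a : Fin N), k < n + 1 → ‖s.T ((theta S)^[k] (PP S a)) - (theta S)^[k] (PP S a)‖ ≤ ε) →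
    (Nat.card {x : Fin (n + 1) → Fin N // Adm A x} : ℝ) *
      Real.exp (t * ((n + 1) * ((1 - ε) / (1 + 2 * ε)))) ≤
      (s.rank : ℝ) * ((N : ℝ) - 1 + Real.exp t) ^ (n + 1)

/-- **UP** (150 lines, uses INI TN TOS STEP GOOD GR1). `ht_nuc(θ_A) ≤ log r(A)`: for `F`, `ε` let
`E, δ, r` be from GOOD for all `b ∈ F` with `C = d + 2`; `c` from INI; `c_m` = m-th iterate of STEP,
`c_m.T = Tst^m c.T`, `D = c.T - id`, `Tst^m D = c_m.T - id`, `cnt c_m = A^m cnt c`; the system of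
`c_{n+r}` (TOS) has error `≤ ε/2 < ε` on `θ^j(b)`, `j < n`, and rank `∑ (A^{n+r} cnt)_i`. -/
def S_UP : Prop :=
  ∀ (N : ℕ) (A : Matrix (Fin N) (Fin N) ℕ) (B : Type) [CStarAlgebra B] [Nontrivial B]
    (S : Fin N → B), ZeroOne A → Irred A → CK A S → ∀ d, NucDimLE d B →
    htNuc d (theta S) ≤ ((Real.log (rA A) : ℝ) : EReal)

/-- **LO** (150 lines, uses LOW WRD GR2). `log r(A) ≤ ht_nuc(θ_A)`: `F = {1, P_1, …, P_N}`. From LOW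
`log rank ≥ log w_{n+1} + t(n+1)((1-ε)/(1+2ε) - 1) - (n+1) log(1 + (N-1)e^{-t})`; take limsup, then
`ε → 0`, then `t → ∞`. (`rnuc` is `⊤` if there is no system: fine.) -/
def S_LO : Prop :=
  ∀ (N : ℕ) (A : Matrix (Fin N) (Fin N) ℕ) (B : Type) [CStarAlgebra B] [Nontrivial B]
    (S : Fin N → B), ZeroOne A → Irred A → CK A S → ∀ d,
    ((Real.log (rA A) : ℝ) : EReal) ≤ htNuc d (theta S)

/-- the final theorem -/
def S_FIN : Prop :=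
  ∀ (N : ℕ) (A : Matrix (Fin N) (Fin N) ℕ) (B : Type) [CStarAlgebra B] [Nontrivial B]
    (S : Fin N → B), ZeroOne A → Irred A → CK A S → ∀ d, NucDimLE d B →
    htNuc d (theta S) = ((Real.log (rA A) : ℝ) : EReal)

theorem fin (h1 : S_UP) (h2 : S_LO) : S_FIN := fun N A B _ _ S h01 hi hS d hd =>
  le_antisymm (h1 N A B S h01 hi hS d hd) (h2 N A B S h01 hi hS d)

end Run7.h450.CE
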