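import Pool.Agent.Run7.h450.CE.Base

/-! Rows over a C*-algebra. -/

set_option autoImplicit false
open Filter Topology Matrix
open scoped ComplexOrder

namespace Run7.h450.CE

section row
variable {B : Type} [CStarAlgebra B]

theorem row_le {M : Type} [Fintype M] (u : M → B) (s : ℝ) (hs : 0 ≤ s)
    (h : ∀ b : M → B, Pos ((s : ℂ) • ∑ κ, star (b κ) * b κ -
      star (∑ κ, u κ * b κ) * ∑ κ, u κ * b κ)) :
    ‖∑ κ, u κ * star (u κ)‖ ≤ s := by
  have h1 := h (fun κ => star (u κ))
  simp only [star_star] at h1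
  have hsa : star (∑ κ, u κ * star (u κ)) = ∑ κ, u κ * star (u κ) := by
    rw [star_sum]; simp
  set t := ∑ κ, u κ * star (u κ) with ht
  have h2 : ‖star t * t‖ ≤ ‖(s : ℂ) • t‖ := (pos_star_mul t).norm_le h1
  rw [CStarRing.norm_star_mul_self, norm_smul, Complex.norm_real, Real.norm_of_nonneg hs] at h2
  by_contra hc
  push Not at hc
  have h3 : 0 < ‖t‖ := lt_of_le_of_lt hs hc
  nlinarith

theorem ip_orth {M : Type} [Fintype M] (u : M → B) (b : M → B)
    (ho : ∀ κ l, κ ≠ l → star (u κ) * u l = 0) :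
    star (∑ κ, u κ * b κ) * ∑ κ, u κ * b κ = ∑ κ, star (b κ) * (star (u κ) * u κ) * b κ := by
  classical
  rw [star_sum, Finset.sum_mul_sum]
  refine Finset.sum_congr rfl fun κ _ => ?_
  rw [Finset.sum_eq_single κ]
  · simp [mul_assoc]
  · intro l _ hl
    have := ho κ l (Ne.symm hl)
    calc star (u κ * b κ) * (u l * b l) = star (b κ) * (star (u κ) * u l) * b l := by
          simp [mul_assoc]
      _ = 0 := by rw [this]; simp
  · simp

theorem orth_row {M : Type} [Fintype M] (u : M → B) (s : ℝ) (hs : 0 ≤ s)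
    (ho : ∀ κ l, κ ≠ l → star (u κ) * u l = 0)
    (hu : ∀ κ, Pos ((s : ℂ) • (1 : B) - star (u κ) * u κ)) (b : M → B) :
    Pos ((s : ℂ) • ∑ κ, star (b κ) * b κ - star (∑ κ, u κ * b κ) * ∑ κ, u κ * b κ) := by
  rw [ip_orth u b ho, Finset.smul_sum, ← Finset.sum_sub_distrib]
  refine Pos.sum _ _ fun κ _ => ?_
  have := (hu κ).conj (b κ)
  have e : star (b κ) * ((s : ℂ) • (1 : B) - star (u κ) * u κ) * b κ =
      (s : ℂ) • (star (b κ) * b κ) - star (b κ) * (star (u κ) * u κ) * b κ := by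
    rw [mul_sub, sub_mul]; simp
  rwa [e] at this

end row

section Q
variable {B : Type} [CStarAlgebra B] {ι : Type} [Fintype ι] {K : ι → Type}
    [∀ i, Fintype (K i)]

noncomputable def Q (m : ∀ i, Matrix (K i) (K i) ℂ) (x y : ∀ i, K i → B) : B :=
  ∑ i, ∑ k, ∑ l, (m i k l) • (x i k * star (y i l))

noncomputable def RN (x : ∀ i, K i → B) : ℝ := ‖∑ i, ∑ k, x i k * star (x i k)‖

theorem Q_add_m (m m' : ∀ i, Matrix (K i) (K i) ℂ) (x y : ∀ i, K i → B) :
    Q (fun i => m i + m' i) x y = Q m x y + Q m' x y := by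
  simp only [Q, Matrix.add_apply, add_smul, Finset.sum_add_distrib]

theorem Q_sub_m (m m' : ∀ i, Matrix (K i) (K i) ℂ) (x y : ∀ i, K i → B) :
    Q (fun i => m i - m' i) x y = Q m x y - Q m' x y := by
  simp only [Q, Matrix.sub_apply, sub_smul, Finset.sum_sub_distrib]

theorem Q_smul_m (c : ℂ) (m : ∀ i, Matrix (K i) (K i) ℂ) (x y : ∀ i, K i → B) :
    Q (fun i => c • m i) x y = c • Q m x y := by
  simp only [Q, Matrix.smul_apply, smul_eq_mul, mul_smul, Finset.smul_sum]

theorem Q_sum_m {J : Type} [Fintype J] (m : J → ∀ i, Matrix (K i) (K i) ℂ)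
    (x y : ∀ i, K i → B) :
    Q (fun i => ∑ j, m j i) x y = ∑ j, Q (m j) x y := by
  simp only [Q, Matrix.sum_apply, Finset.sum_smul]
  symm
  rw [Finset.sum_comm]
  refine Finset.sum_congr rfl fun i _ => ?_
  rw [Finset.sum_comm]
  refine Finset.sum_congr rfl fun k _ => ?_
  exact Finset.sum_comm

theorem Q_sub_x (m : ∀ i, Matrix (K i) (K i) ℂ) (x x' y : ∀ i, K i → B) :
    Q m (fun i k => x i k - x' i k) y = Q m x y - Q m x' y := by
  simp only [Q, sub_mul, smul_sub, Finset.sum_sub_distrib]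

theorem Q_sub_y (m : ∀ i, Matrix (K i) (K i) ℂ) (x y y' : ∀ i, K i → B) :
    Q m x (fun i k => y i k - y' i k) = Q m x y - Q m x y' := by
  simp only [Q, star_sub, mul_sub, smul_sub, Finset.sum_sub_distrib]

theorem Q_star (m : ∀ i, Matrix (K i) (K i) ℂ) (x y : ∀ i, K i → B) :
    star (Q m x y) = Q (fun i => (m i)ᴴ) y x := by
  simp only [Q, star_sum, star_smul, star_mul, star_star, Matrix.conjTranspose_apply]
  refine Finset.sum_congr rfl fun i _ => ?_
  rw [Finset.sum_comm]

theorem Q_mul (m : ∀ i, Matrix (K i) (K i) ℂ) (a b : B) (x y : ∀ i, K i → B) :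
    Q m (fun i k => a * x i k) (fun i k => b * y i k) = a * Q m x y * star b := by
  simp only [Q, Finset.mul_sum, Finset.sum_mul, star_mul, mul_smul_comm, smul_mul_assoc, mul_assoc]

theorem Q_conj {K' : ι → Type} [∀ i, Fintype (K' i)] (m : ∀ i, Matrix (K i) (K i) ℂ)
    (U U' : ∀ i, Matrix (K i) (K' i) ℂ) (y y' : ∀ i, K' i → B) :
    Q (fun i => (U i)ᴴ * m i * U' i) y y' =
      Q m (fun i k => ∑ κ, star (U i k κ) • y i κ) (fun i l => ∑ κ, star (U' i l κ) • y' i κ) := by
  simp only [Q]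
  refine Finset.sum_congr rfl fun i _ => ?_
  simp only [Matrix.mul_apply, Matrix.conjTranspose_apply, star_sum, star_smul, star_star,
    Finset.sum_mul, Finset.mul_sum, Finset.smul_sum, smul_mul_assoc, mul_smul_comm,
    Finset.sum_smul]
  -- LHS: ∑ κ, ∑ κ', ∑ l, ∑ k ; RHS: ∑ k, ∑ l, ∑ κ', ∑ κ
  calc _ = ∑ κ, ∑ κ', ∑ k, ∑ l, (star (U i k κ) * m i k l * U' i l κ') • (y i κ * star (y' i κ')) := by
        refine Finset.sum_congr rfl fun κ _ => Finset.sum_congr rfl fun κ' _ => ?_
        rw [Finset.sum_comm]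
    _ = ∑ κ, ∑ k, ∑ κ', ∑ l, (star (U i k κ) * m i k l * U' i l κ') • (y i κ * star (y' i κ')) := by
        refine Finset.sum_congr rfl fun κ _ => ?_
        rw [Finset.sum_comm]
    _ = ∑ k, ∑ κ, ∑ κ', ∑ l, (star (U i k κ) * m i k l * U' i l κ') • (y i κ * star (y' i κ')) := by
        rw [Finset.sum_comm]
    _ = ∑ k, ∑ κ, ∑ l, ∑ κ', (star (U i k κ) * m i k l * U' i l κ') • (y i κ * star (y' i κ')) := by
        refine Finset.sum_congr rfl fun k _ => Finset.sum_congr rfl fun κ _ => ?_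
        rw [Finset.sum_comm]
    _ = ∑ k, ∑ l, ∑ κ, ∑ κ', (star (U i k κ) * m i k l * U' i l κ') • (y i κ * star (y' i κ')) := by
        refine Finset.sum_congr rfl fun k _ => ?_
        rw [Finset.sum_comm]
    _ = _ := by
        refine Finset.sum_congr rfl fun k _ => Finset.sum_congr rfl fun l _ => ?_
        rw [Finset.sum_comm]
        refine Finset.sum_congr rfl fun κ _ => Finset.sum_congr rfl fun κ' _ => ?_
        rw [smul_smul, smul_smul]; congr 1; ring

theorem Q_pos (m : ∀ i, Matrix (K i) (K i) ℂ) (x : ∀ i, K i → B) (h : ∀ i, Pos (m i)) :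
    Pos (Q m x x) := by
  refine Pos.sum _ _ fun i _ => ?_
  obtain ⟨c, hc⟩ := h i
  have e : ∑ k, ∑ l, (m i k l) • (x i k * star (x i l)) =
      ∑ r, (∑ k, star (c r k) • x i k) * star (∑ k, star (c r k) • x i k) := by
    rw [hc]
    simp only [Matrix.star_eq_conjTranspose, Matrix.mul_apply, Matrix.conjTranspose_apply,
      star_sum, star_smul, star_star, Finset.sum_mul, Finset.mul_sum, Finset.sum_smul,
      Finset.smul_sum, smul_mul_assoc, mul_smul_comm]
    calc _ = ∑ k, ∑ r, ∑ l, (star (c r k) * c r l) • (x i k * star (x i l)) := by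
          refine Finset.sum_congr rfl fun k _ => ?_
          rw [Finset.sum_comm]
      _ = ∑ r, ∑ k, ∑ l, (star (c r k) * c r l) • (x i k * star (x i l)) := by
          rw [Finset.sum_comm]
      _ = _ := by
          refine Finset.sum_congr rfl fun r _ => ?_
          rw [Finset.sum_comm]
          refine Finset.sum_congr rfl fun κ _ => Finset.sum_congr rfl fun κ' _ => ?_
          rw [smul_smul]; congr 1; ring
  rw [e]
  exact Pos.sum _ _ fun r _ => pos_mul_star _

end Q

end Run7.h450.CE
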